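import Mathlib

/-!
# The nontrivial eigenvalues of the Redheffer matrices are unbounded

`result` : for every real `C` there are infinitely many `n` for which the `n × n` Redheffer matrix
has a nontrivial eigenvalue of modulus greater than `C`.

Outline of the proof.  Let `P m` be the polynomial whose `k`-th coefficient is the number of ordered
factorizations of `m` into `k` factors `≥ 2`, `F n = ∑_{m ≤ n} P m` and `Q n z = 1 + z - z F n (z)`.
Then `det ((1 + w) I - A(n)) = w ^ n Q n (1 / w)`, hence `Q n z = ∏ (1 - (μ - 1) z)` over the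
eigenvalues `μ`.  Suppose that all nontrivial eigenvalues are bounded by `C` for large `n`.  Then
`(1 / log n) log |Q n z|` is, near `0`, the sum of `(1 / log n) log |(1 - (ρ₁ - 1) z) (1 - (ρ₂ - 1) z)|`,
which tends to `1`, and of a uniformly bounded family of harmonic functions vanishing at `0`.
On the positive axis it has a limit `> 1`, so that family converges to the real part of an analytic
function `h` with `h 0 = 0` and `h x > 0` for `x > 0`.  At a product `n` of `m` distinct primes the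
value `P n (z)` is the `m`-th Taylor coefficient (times `m!`) of `1 / (1 - z (exp t - 1))`, which has
a pole, so for the product of the first `m` primes it is at least `n ^ (1 - o(1))` for infinitely
many `m`; as `z P n (z) = Q (n - 1) z - Q n z`, this forces `Re h ≥ 0` everywhere, contradicting the
minimum principle.
-/

open Polynomial Finset Filter Topology

namespace Pool.Agent.Results.MP_8a4b73_nt.Unbounded

/-- The Redheffer matrix, row and column index `i : Fin n` standing for `i + 1`. -/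
def redheffer (n : ℕ) : Matrix (Fin n) (Fin n) ℂ :=
  fun i j => if (j : ℕ) = 0 ∨ (i : ℕ) + 1 ∣ (j : ℕ) + 1 then 1 else 0

/-- Generating polynomials of the ordered factorizations: the coefficient of `X ^ k` in `P m` is the
number of ordered factorizations of `m` into `k` factors `≥ 2`. -/
noncomputable def P : ℕ → ℕ[X]
  | 0 => 0
  | 1 => 1
  | (m + 2) => X * ∑ e ∈ (m + 2).properDivisors.attach,
      have : (e : ℕ) < m + 2 := (Nat.mem_properDivisors.mp e.2).2
      P e

theorem P_zero : P 0 = 0 := by rw [P]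
theorem P_one : P 1 = 1 := by rw [P]
theorem P_rec {m : ℕ} (hm : 2 ≤ m) : P m = X * ∑ e ∈ m.properDivisors, P e := by
  obtain ⟨k, rfl⟩ := Nat.exists_eq_add_of_le' hm
  rw [P, Finset.sum_attach (k + 2).properDivisors (fun e => P e)]

/-- Summatory polynomial. -/
noncomputable def F (n : ℕ) : ℕ[X] := ∑ m ∈ Finset.Icc 1 n, P m

theorem F_zero : F 0 = 0 := by simp [F]
theorem F_succ (n : ℕ) : F (n + 1) = F n + P (n + 1) := by
  rw [F, F, Finset.sum_Icc_succ_top (by omega)]
theorem F_one : F 1 = 1 := by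
  rw [F_succ, F_zero, P_one, zero_add]

theorem sum_proper_eq (n : ℕ) (hn : 1 ≤ n) :
    ∑ e ∈ (n + 1).properDivisors, P e
      = ∑ d ∈ (Finset.Icc 2 n).filter (fun d => d ∣ n + 1), P ((n + 1) / d) + 1 := by
  have h2 : ∑ d ∈ insert (n + 1) ((Finset.Icc 2 n).filter (fun d => d ∣ n + 1)), P ((n + 1) / d)
      = ∑ d ∈ (Finset.Icc 2 n).filter (fun d => d ∣ n + 1), P ((n + 1) / d) + 1 := by
    rw [Finset.sum_insert (by simp), Nat.div_self (by omega), P_one, add_comm]
  rw [← h2]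
  symm
  refine Finset.sum_nbij' (fun d => (n + 1) / d) (fun e => (n + 1) / e) ?_ ?_ ?_ ?_ ?_
  · intro d hd
    have hd' : d ∣ n + 1 ∧ 2 ≤ d := by
      rcases Finset.mem_insert.mp hd with rfl | h
      · exact ⟨dvd_rfl, by omega⟩
      · simp only [Finset.mem_filter, Finset.mem_Icc] at h
        exact ⟨h.2, h.1.1⟩
    rw [Nat.mem_properDivisors]
    exact ⟨Nat.div_dvd_of_dvd hd'.1, Nat.div_lt_self (by omega) hd'.2⟩
  · intro e he
    rw [Nat.mem_properDivisors] at he
    have he0 : 0 < e := Nat.pos_of_dvd_of_pos he.1 (by omega)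
    have h3 : (n + 1) / e ∣ n + 1 := Nat.div_dvd_of_dvd he.1
    have h4 : (n + 1) / e ≤ n + 1 := Nat.div_le_self _ _
    have h5 : 2 ≤ (n + 1) / e := by
      obtain ⟨c, hc⟩ := he.1
      have : (n + 1) / e = c := by rw [hc]; exact Nat.mul_div_cancel_left _ he0
      rw [this]
      by_contra hlt
      have : c = 0 ∨ c = 1 := by omega
      rcases this with rfl | rfl <;> omega
    rcases eq_or_lt_of_le h4 with h | h
    · rw [h]; simp
    · refine Finset.mem_insert_of_mem ?_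
      simp only [Finset.mem_filter, Finset.mem_Icc]
      exact ⟨⟨h5, by omega⟩, h3⟩
  · intro d hd
    have hd' : d ∣ n + 1 := by
      rcases Finset.mem_insert.mp hd with rfl | h
      · exact dvd_rfl
      · simp only [Finset.mem_filter, Finset.mem_Icc] at h
        exact h.2
    exact Nat.div_div_self hd' (by omega)
  · intro e he
    rw [Nat.mem_properDivisors] at he
    exact Nat.div_div_self he.1 (by omega)
  · intro d _
    rfl

theorem F_rec (n : ℕ) (hn : 1 ≤ n) : F n = 1 + X * ∑ d ∈ Finset.Icc 2 n, F (n / d) := by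
  induction n, hn using Nat.le_induction with
  | base => simp [F_one]
  | succ n hn ih =>
    rw [F_succ, P_rec (by omega), ih, add_assoc, ← mul_add]
    congr 2
    rw [Finset.sum_Icc_succ_top (by omega : 2 ≤ n + 1)]
    have h1 : ∑ d ∈ Finset.Icc 2 n, F ((n + 1) / d)
        = ∑ d ∈ Finset.Icc 2 n, F (n / d) +
          ∑ d ∈ (Finset.Icc 2 n).filter (fun d => d ∣ n + 1), P ((n + 1) / d) := by
      rw [Finset.sum_filter, ← Finset.sum_add_distrib]
      refine Finset.sum_congr rfl fun d hd => ?_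
      rw [Nat.succ_div]
      split_ifs with h
      · rw [F_succ]
      · simp
    rw [h1, add_assoc]
    congr 1
    rw [Nat.div_self (by omega), F_one]
    exact sum_proper_eq n hn

theorem P_natDegree_le (m : ℕ) : (P m).natDegree ≤ Nat.log 2 m := by
  induction m using Nat.strong_induction_on with
  | _ m ih =>
    rcases Nat.lt_or_ge m 2 with h | h
    · interval_cases m
      · simp [P_zero]
      · simp [P_one]
    · rw [P_rec h]
      have h1 : 1 ≤ Nat.log 2 m := by
        rw [Nat.succ_le_iff]; exact Nat.log_pos (by norm_num) h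
      refine natDegree_mul_le.trans ?_
      have h0 : (X : ℕ[X]).natDegree ≤ 1 := natDegree_X_le
      have h2 : (∑ e ∈ m.properDivisors, P e).natDegree ≤ Nat.log 2 m - 1 := by
        refine natDegree_sum_le_of_forall_le _ _ fun e he => ?_
        rw [Nat.mem_properDivisors] at he
        have h3 : e ≤ m / 2 := by
          obtain ⟨c, hc⟩ := he.1
          have hc2 : 2 ≤ c := by
            by_contra hlt
            have : c = 0 ∨ c = 1 := by omega
            rcases this with rfl | rfl <;> omega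
          rw [Nat.le_div_iff_mul_le (by norm_num), hc]
          exact Nat.mul_le_mul_left e hc2
        calc (P e).natDegree ≤ Nat.log 2 e := ih e he.2
          _ ≤ Nat.log 2 (m / 2) := Nat.log_mono_right h3
          _ = Nat.log 2 m - 1 := Nat.log_div_base 2 m
      omega

theorem F_natDegree_le (n : ℕ) : (F n).natDegree ≤ Nat.log 2 n := by
  refine natDegree_sum_le_of_forall_le _ _ fun m hm => ?_
  exact (P_natDegree_le m).trans (Nat.log_mono_right (Finset.mem_Icc.mp hm).2)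

/-- the coefficient of `X ^ k` in `P (2 ^ k)` is positive -/
theorem P_two_pow_coeff (k : ℕ) : 1 ≤ (P (2 ^ k)).coeff k := by
  induction k with
  | zero => simp [P_one]
  | succ k ih =>
    rw [P_rec (by rw [pow_succ]; have := Nat.one_le_two_pow (n := k); omega)]
    rw [coeff_X_mul, finsetSum_coeff]
    have hmem : 2 ^ k ∈ (2 ^ (k + 1)).properDivisors := by
      rw [Nat.mem_properDivisors]
      exact ⟨pow_dvd_pow 2 (by omega), Nat.pow_lt_pow_right (by norm_num) (by omega)⟩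
    exact ih.trans (Finset.single_le_sum (f := fun e => (P e).coeff k) (fun _ _ => Nat.zero_le _) hmem)

theorem F_coeff_log (n : ℕ) (hn : 1 ≤ n) : 1 ≤ (F n).coeff (Nat.log 2 n) := by
  rw [F, finsetSum_coeff]
  have hmem : 2 ^ (Nat.log 2 n) ∈ Finset.Icc 1 n :=
    Finset.mem_Icc.mpr ⟨Nat.one_le_two_pow, Nat.pow_log_le_self 2 (by omega)⟩
  exact (P_two_pow_coeff _).trans
    (Finset.single_le_sum (f := fun e => (P e).coeff (Nat.log 2 n)) (fun _ _ => Nat.zero_le _) hmem)

theorem P_coeff_zero {m : ℕ} (hm : 2 ≤ m) : (P m).coeff 0 = 0 := by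
  rw [P_rec hm, mul_coeff_zero, coeff_X_zero, zero_mul]

/-! ### Linear algebra -/

/-- Value of the polynomials at a complex (or real) number. -/
theorem aeval_P_rec {R : Type*} [CommSemiring R] (z : R) {m : ℕ} (hm : 2 ≤ m) :
    aeval z (P m) = z * ∑ e ∈ m.properDivisors, aeval z (P e) := by
  rw [P_rec hm, map_mul, aeval_X, map_sum]

theorem det_redheffer (n : ℕ) (hn : 1 ≤ n) (w : ℂ) (hw : w ≠ 0) :
    (redheffer n).charpoly.eval (1 + w) = w ^ n * (1 + w⁻¹ - w⁻¹ * aeval w⁻¹ (F n)) := by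
  obtain ⟨k, rfl⟩ := Nat.exists_eq_add_of_le' hn
  set z := w⁻¹ with hz
  have hzw : z * w = 1 := inv_mul_cancel₀ hw
  let M : Matrix (Fin (k + 1)) (Fin (k + 1)) ℂ := fun i j =>
    if i = j then w else if (i : ℕ) + 1 ∣ (j : ℕ) + 1 then -1 else 0
  let v : Fin (k + 1) → ℂ := fun i => if (i : ℕ) = 0 then 0 else 1
  let y : Fin (k + 1) → ℂ := fun i => z * aeval z (P ((i : ℕ) + 1))
  have hM : M.det = w ^ (k + 1) := by
    rw [Matrix.det_of_isUpperTriangular]
    · simp [M]
    · intro i j hij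
      have hij' : (j : ℕ) < i := hij
      simp only [M]
      rw [if_neg (by rintro rfl; exact lt_irrefl _ hij'), if_neg]
      intro h
      have := Nat.le_of_dvd (by omega) h
      omega
  have hy : ∀ j, ∑ i, y i * M i j = if (j : ℕ) = 0 then 1 else 0 := by
    intro j
    have h1 : ∑ i, y i * M i j = y j * w -
        z * ∑ e ∈ ((j : ℕ) + 1).properDivisors, aeval z (P e) := by
      rw [← Finset.add_sum_erase Finset.univ _ (Finset.mem_univ j)]
      have h2 : y j * M j j = y j * w := by simp [M]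
      rw [h2, sub_eq_add_neg]
      congr 1
      rw [Finset.mul_sum, ← Finset.sum_neg_distrib]
      have h3 : ∀ i ∈ Finset.univ.erase j, y i * M i j =
          if (i : ℕ) + 1 ∣ (j : ℕ) + 1 then -(z * aeval z (P ((i : ℕ) + 1))) else 0 := by
        intro i hi
        simp only [M, y]
        rw [if_neg (Finset.ne_of_mem_erase hi)]
        split_ifs <;> ring
      rw [Finset.sum_congr rfl h3, ← Finset.sum_filter]
      refine Finset.sum_nbij (fun i => (i : ℕ) + 1) ?_ ?_ ?_ ?_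
      · intro i hi
        simp only [Finset.mem_filter, Finset.mem_erase, Finset.mem_univ, and_true] at hi
        rw [Nat.mem_properDivisors]
        refine ⟨hi.2, ?_⟩
        have h4 := Nat.le_of_dvd (by omega) hi.2
        have h5 : (i : ℕ) ≠ j := fun h => hi.1 (Fin.ext h)
        omega
      · intro i _ i' _ h
        exact Fin.ext (by simpa using h)
      · intro e he
        have he' := Nat.mem_properDivisors.mp he
        have he0 : 0 < e := Nat.pos_of_dvd_of_pos he'.1 (by omega)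
        have hj := j.2
        refine ⟨⟨e - 1, by omega⟩, ?_, ?_⟩
        · simp only [Finset.coe_filter, Finset.mem_erase, Finset.mem_univ, and_true,
            Set.mem_ofPred_eq]
          refine ⟨?_, ?_⟩
          · intro h
            have := congrArg Fin.val h
            simp only at this
            omega
          · have : e - 1 + 1 = e := by omega
            rw [this]; exact he'.1
        · simp only
          omega
      · intro i _
        rfl
    rw [h1]
    simp only [y]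
    split_ifs with hj
    · rw [hj]
      simp [P_one, hzw]
    · rw [aeval_P_rec z (m := (j : ℕ) + 1) (by omega)]
      linear_combination (z * ∑ e ∈ ((j : ℕ) + 1).properDivisors, aeval z (P e)) * hzw
  have hfac : Matrix.scalar (Fin (k + 1)) (1 + w) - redheffer (k + 1) =
      (1 + Matrix.replicateCol Unit (fun i => - v i) * Matrix.replicateRow Unit y) * M := by
    ext i j
    rw [add_mul, one_mul, Matrix.mul_assoc, Matrix.sub_apply, Matrix.add_apply]
    have h5 : (Matrix.replicateCol Unit (fun i => - v i) * (Matrix.replicateRow Unit y * M)) i j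
        = - v i * if (j : ℕ) = 0 then 1 else 0 := by
      rw [Matrix.mul_apply]
      simp only [Finset.univ_unique, Finset.sum_singleton, Matrix.replicateCol_apply]
      rw [Matrix.mul_apply]
      simp only [Matrix.replicateRow_apply]
      rw [hy j]
    rw [h5]
    simp only [Matrix.scalar_apply, redheffer, M, v]
    by_cases hij : i = j
    · subst hij
      rw [Matrix.diagonal_apply_eq, if_pos rfl, if_pos (Or.inr dvd_rfl)]
      by_cases h0 : (i : ℕ) = 0
      · simp [h0]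
      · simp [h0]
    · rw [Matrix.diagonal_apply_ne _ hij, if_neg hij]
      by_cases h0 : (j : ℕ) = 0
      · have hi0 : (i : ℕ) ≠ 0 := fun h => hij (Fin.ext (h.trans h0.symm))
        have hnd : ¬ ((i : ℕ) + 1 ∣ (j : ℕ) + 1) := by
          rw [h0]
          intro h
          have := Nat.le_of_dvd (by omega) h
          omega
        rw [if_pos (Or.inl h0), if_neg hnd, if_pos h0, if_neg hi0]
        ring
      · by_cases hd : (i : ℕ) + 1 ∣ (j : ℕ) + 1
        · rw [if_pos (Or.inr hd), if_pos hd, if_neg h0]; ring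
        · rw [if_neg (by rintro (h | h); exacts [h0 h, hd h]), if_neg hd, if_neg h0]; ring
  rw [Matrix.eval_charpoly, hfac, Matrix.det_mul, hM,
    Matrix.det_one_add_replicateCol_mul_replicateRow, mul_comm]
  congr 1
  have h6 : y ⬝ᵥ (fun i => - v i) = - (z * (aeval z (F (k + 1)) - 1)) := by
    have h7 : ∀ i : Fin (k + 1), y i * (- v i) = - (if (i : ℕ) = 0 then 0 else
        z * aeval z (P ((i : ℕ) + 1))) := by
      intro i
      simp only [y, v]
      split_ifs <;> ring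
    have h8 : aeval z (F (k + 1)) - 1 = ∑ m ∈ Finset.range k, aeval z (P (m + 2)) := by
      rw [F, map_sum]
      rw [Finset.range_eq_Ico, Finset.sum_Ico_add' (fun m => aeval z (P m)) 0 k 2]
      have : Finset.Icc 1 (k + 1) = insert 1 (Finset.Ico (0 + 2) (k + 2)) := by
        ext a
        simp only [Finset.mem_Icc, Finset.mem_insert, Finset.mem_Ico]
        omega
      rw [this, Finset.sum_insert (by simp), P_one, map_one]
      ring
    rw [dotProduct, Finset.sum_congr rfl (fun i _ => h7 i), Finset.sum_neg_distrib, h8]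
    congr 1
    rw [Fin.sum_univ_succ]
    simp only [Fin.val_zero, if_true, zero_add, Fin.val_succ, Nat.add_eq_zero_iff, one_ne_zero,
      and_false, if_false]
    rw [Finset.mul_sum, Finset.sum_range (fun m => z * aeval z (P (m + 2)))]
  rw [h6]
  ring

/-- the characteristic polynomial in reversed form -/
noncomputable def Q (n : ℕ) (z : ℂ) : ℂ := 1 + z - z * aeval z (F n)

/-- `Q` as a polynomial -/
noncomputable def Qp (n : ℕ) : ℂ[X] := 1 + X - X * (F n).map (Nat.castRingHom ℂ)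

theorem aeval_eq_eval_map (p : ℕ[X]) (z : ℂ) : aeval z p = (p.map (Nat.castRingHom ℂ)).eval z := by
  rw [eval_map, aeval_def, eval₂_eq_sum, eval₂_eq_sum]
  simp

theorem eval_Qp (n : ℕ) (z : ℂ) : (Qp n).eval z = Q n z := by
  simp only [Qp, Q, eval_sub, eval_add, eval_one, eval_X, eval_mul, aeval_eq_eval_map]

theorem F_eval_zero (n : ℕ) (hn : 1 ≤ n) : aeval (0 : ℂ) (F n) = 1 := by
  rw [F_rec n hn]; simp

theorem card_roots_eq (n : ℕ) : (redheffer n).charpoly.roots.card = n := by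
  have h := (IsAlgClosed.splits (redheffer n).charpoly).natDegree_eq_card_roots
  rw [Matrix.charpoly_natDegree_eq_dim, Fintype.card_fin] at h
  exact h.symm

/-- product formula -/
theorem Q_prod (n : ℕ) (hn : 1 ≤ n) (z : ℂ) :
    Q n z = ((redheffer n).charpoly.roots.map (fun μ => 1 - (μ - 1) * z)).prod := by
  rcases eq_or_ne z 0 with rfl | hz
  · simp [Q]
  have h1 := det_redheffer n hn z⁻¹ (inv_ne_zero hz)
  rw [inv_inv] at h1
  have h2 := (IsAlgClosed.splits (redheffer n).charpoly).eval_eq_prod_roots_of_monic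
    (Matrix.charpoly_monic _) (1 + z⁻¹)
  rw [h2] at h1
  have h3 : Q n z = z ^ n * ((redheffer n).charpoly.roots.map (fun μ => (1 + z⁻¹) - μ)).prod := by
    rw [h1, ← mul_assoc, ← mul_pow, mul_inv_cancel₀ hz, one_pow, one_mul]
    rfl
  have h4 : z ^ n = ((redheffer n).charpoly.roots.map (fun _ => z)).prod := by
    rw [Multiset.map_const', Multiset.prod_replicate, card_roots_eq]
  rw [h3, h4, ← Multiset.prod_map_mul]
  congr 1
  refine Multiset.map_congr rfl fun μ _ => ?_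
  field_simp
  ring

theorem Qp_eq_prod (n : ℕ) (hn : 1 ≤ n) :
    Qp n = ((redheffer n).charpoly.roots.map (fun μ => 1 - C (μ - 1) * X)).prod := by
  refine Polynomial.funext fun z => ?_
  rw [eval_Qp, Q_prod n hn, eval_multiset_prod, Multiset.map_map]
  congr 1
  refine Multiset.map_congr rfl fun μ _ => ?_
  simp

theorem Qp_natDegree (n : ℕ) (hn : 2 ≤ n) : (Qp n).natDegree = Nat.log 2 n + 1 := by
  have hL : 1 ≤ Nat.log 2 n := Nat.log_pos (by norm_num) hn
  have hc : (Qp n).coeff (Nat.log 2 n + 1) = -((F n).coeff (Nat.log 2 n) : ℂ) := by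
    rw [Qp, coeff_sub, coeff_add, coeff_X_mul, coeff_map]
    rw [coeff_one, if_neg (by omega), coeff_X, if_neg (by omega)]
    simp
  have hc0 : (Qp n).coeff (Nat.log 2 n + 1) ≠ 0 := by
    rw [hc, neg_ne_zero]
    have := F_coeff_log n (by omega)
    exact_mod_cast (by omega : (F n).coeff (Nat.log 2 n) ≠ 0)
  refine le_antisymm ?_ (le_natDegree_of_ne_zero hc0)
  have h1 : ((F n).map (Nat.castRingHom ℂ)).natDegree ≤ Nat.log 2 n :=
    natDegree_map_le.trans (F_natDegree_le n)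
  rw [Qp]
  refine (natDegree_sub_le _ _).trans (max_le ?_ ?_)
  · refine (natDegree_add_le _ _).trans (max_le (by simp) ?_)
    exact (natDegree_X_le).trans (by omega)
  · refine natDegree_mul_le.trans ?_
    have : (X : ℂ[X]).natDegree ≤ 1 := natDegree_X_le
    omega

theorem card_ne_one (n : ℕ) (hn : 2 ≤ n) :
    ((redheffer n).charpoly.roots.filter (fun μ => μ ≠ 1)).card = Nat.log 2 n + 1 := by
  rw [← Qp_natDegree n hn, Qp_eq_prod n (by omega), natDegree_multiset_prod, Multiset.map_map]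
  · induction (redheffer n).charpoly.roots using Multiset.induction_on with
    | empty => simp
    | cons a s ih =>
      rw [Multiset.map_cons, Multiset.sum_cons, ← ih]
      by_cases ha : a = 1
      · rw [Multiset.filter_cons_of_neg (p := fun μ => μ ≠ (1 : ℂ)) _ (by simpa using ha)]
        simp [ha]
      · rw [Multiset.filter_cons_of_pos (p := fun μ => μ ≠ (1 : ℂ)) _ ha, Multiset.card_cons, add_comm]
        congr 1
        simp only [Function.comp_apply]
        have h1 : (1 : ℂ[X]) - C (a - 1) * X = C (-(a - 1)) * X + C 1 := by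
          simp only [C_neg, C_1]; ring
        rw [h1, natDegree_linear (neg_ne_zero.mpr (sub_ne_zero.mpr ha))]
  · intro h
    rw [Multiset.mem_map] at h
    obtain ⟨a, _, ha⟩ := h
    have := congrArg (fun p => eval 0 p) ha
    simp at this

theorem roots_eq (n : ℕ) (hn : 2 ≤ n) :
    (redheffer n).charpoly.roots = Multiset.replicate (n - Nat.log 2 n - 1) 1 +
      (redheffer n).charpoly.roots.filter (fun μ => μ ≠ 1) := by
  have h1 := Multiset.filter_add_not (p := fun μ => μ = (1 : ℂ)) (redheffer n).charpoly.roots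
  have h2 := card_ne_one n hn
  have h3 := congrArg Multiset.card h1
  rw [Multiset.card_add, card_roots_eq] at h3
  rw [Multiset.filter_eq'] at h1 h3
  rw [Multiset.card_replicate] at h3
  have h4 : Multiset.count 1 (redheffer n).charpoly.roots = n - Nat.log 2 n - 1 := by
    have : (Multiset.filter (fun a => ¬a = 1) (redheffer n).charpoly.roots).card
      = Nat.log 2 n + 1 := h2
    omega
  rw [h4] at h1
  exact h1.symm

/-- `x ≠ 0` a zero of `Q n` gives the eigenvalue `1 + x⁻¹`. -/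
theorem mem_roots_of_Q (n : ℕ) (hn : 1 ≤ n) (z : ℂ) (hz : z ≠ 0) (hQ : Q n z = 0) :
    1 + z⁻¹ ∈ (redheffer n).charpoly.roots := by
  rw [mem_roots (Matrix.charpoly_monic _).ne_zero, IsRoot.def, det_redheffer n hn _ (inv_ne_zero hz),
    inv_inv]
  have : 1 + z - z * aeval z (F n) = 0 := hQ
  rw [this, mul_zero]

/-- value of the summatory polynomial at a real number -/
noncomputable def f (x : ℝ) (n : ℕ) : ℝ := aeval x (F n)

theorem f_rec (x : ℝ) (n : ℕ) (hn : 1 ≤ n) : f x n = 1 + x * ∑ d ∈ Finset.Icc 2 n, f x (n / d) := by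
  unfold f
  conv_lhs => rw [F_rec n hn]
  rw [map_add, map_one, map_mul, aeval_X, map_sum]

theorem aeval_nat_nonneg (p : ℕ[X]) {x : ℝ} (hx : 0 ≤ x) : 0 ≤ aeval x p := by
  rw [aeval_def, eval₂_eq_sum, Polynomial.sum]
  exact Finset.sum_nonneg fun i _ => by simp; positivity

theorem norm_aeval_le (p : ℕ[X]) (z : ℂ) : ‖aeval z p‖ ≤ aeval ‖z‖ p := by
  rw [aeval_def, eval₂_eq_sum, Polynomial.sum, aeval_def, eval₂_eq_sum, Polynomial.sum]
  refine (norm_sum_le _ _).trans (Finset.sum_le_sum fun i _ => ?_)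
  simp

theorem f_nonneg {x : ℝ} (hx : 0 ≤ x) (n : ℕ) : 0 ≤ f x n := aeval_nat_nonneg _ hx

theorem one_le_f {x : ℝ} (hx : 0 ≤ x) {n : ℕ} (hn : 1 ≤ n) : 1 ≤ f x n := by
  rw [f_rec x n hn]
  have : 0 ≤ x * ∑ d ∈ Finset.Icc 2 n, f x (n / d) :=
    mul_nonneg hx (Finset.sum_nonneg fun d _ => f_nonneg hx _)
  linarith

theorem f_lower_lin {x : ℝ} (hx : 0 ≤ x) {n : ℕ} (hn : 1 ≤ n) : 1 + x * (n - 1) ≤ f x n := by
  rw [f_rec x n hn]
  have h : ((n : ℝ) - 1) = ∑ d ∈ Finset.Icc 2 n, (1 : ℝ) := by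
    rw [Finset.sum_const, Nat.card_Icc, nsmul_eq_mul, mul_one]
    rw [Nat.cast_sub (by omega)]
    push_cast; ring
  rw [h]
  gcongr with d hd
  have hd' := Finset.mem_Icc.mp hd
  exact one_le_f hx (Nat.div_pos hd'.2 (by omega))

theorem f_upper {x σ θ : ℝ} (hx : 0 ≤ x) (hσ : 0 ≤ σ) (hθ : θ < 1)
    (h : ∀ n : ℕ, x * ∑ d ∈ Finset.Icc 2 n, (d : ℝ) ^ (-σ) ≤ θ) {n : ℕ} (hn : 1 ≤ n) :
    f x n ≤ (1 - θ)⁻¹ * (n : ℝ) ^ σ := by
  have hA : 0 < (1 - θ)⁻¹ := inv_pos.mpr (by linarith)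
  induction n using Nat.strong_induction_on with
  | _ n ih =>
    rw [f_rec x n hn]
    have hn1 : (1 : ℝ) ≤ (n : ℝ) ^ σ := Real.one_le_rpow (by exact_mod_cast hn) hσ
    have h1 : ∑ d ∈ Finset.Icc 2 n, f x (n / d) ≤
        (1 - θ)⁻¹ * (n : ℝ) ^ σ * ∑ d ∈ Finset.Icc 2 n, (d : ℝ) ^ (-σ) := by
      rw [Finset.mul_sum]
      refine Finset.sum_le_sum fun d hd => ?_
      have hd' := Finset.mem_Icc.mp hd
      have hd0 : (0 : ℝ) < d := by exact_mod_cast (by omega : 0 < d)
      refine (ih (n / d) (Nat.div_lt_self (by omega) hd'.1) (Nat.div_pos hd'.2 (by omega))).trans ?_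
      rw [mul_assoc]
      refine mul_le_mul_of_nonneg_left ?_ hA.le
      rw [Real.rpow_neg hd0.le, ← div_eq_mul_inv, ← Real.div_rpow (by positivity) hd0.le]
      exact Real.rpow_le_rpow (by positivity) Nat.cast_div_le hσ
    have h2 := mul_le_mul_of_nonneg_left h1 hx
    have h3 : x * ((1 - θ)⁻¹ * (n : ℝ) ^ σ * ∑ d ∈ Finset.Icc 2 n, (d : ℝ) ^ (-σ)) ≤
        (1 - θ)⁻¹ * (n : ℝ) ^ σ * θ := by
      have := mul_le_mul_of_nonneg_left (h n) (by positivity : 0 ≤ (1 - θ)⁻¹ * (n : ℝ) ^ σ)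
      calc x * ((1 - θ)⁻¹ * (n : ℝ) ^ σ * ∑ d ∈ Finset.Icc 2 n, (d : ℝ) ^ (-σ))
          = (1 - θ)⁻¹ * (n : ℝ) ^ σ * (x * ∑ d ∈ Finset.Icc 2 n, (d : ℝ) ^ (-σ)) := by ring
        _ ≤ _ := this
    have h4 : (1 - θ)⁻¹ * (n : ℝ) ^ σ = (n : ℝ) ^ σ + (1 - θ)⁻¹ * (n : ℝ) ^ σ * θ := by
      field_simp [(by linarith : (1 - θ) ≠ 0)]
      ring
    linarith

theorem f_lower {x σ : ℝ} (hx : 0 ≤ x) (hσ : 0 ≤ σ) {M : ℕ} (hM : 1 ≤ M)
    (h : 1 ≤ x * ∑ d ∈ Finset.Icc 2 M, (d : ℝ) ^ (-σ)) (N : ℕ) :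
    ∀ t : ℝ, 1 ≤ t → ⌊t⌋₊ = N → (t / M) ^ σ ≤ f x ⌊t⌋₊ := by
  have hM0 : (0 : ℝ) < M := by exact_mod_cast hM
  induction N using Nat.strong_induction_on with
  | _ N ih =>
    intro t ht hN
    have hfl : 1 ≤ ⌊t⌋₊ := Nat.one_le_floor_iff t |>.mpr ht
    rcases le_or_gt t M with htM | htM
    · refine (Real.rpow_le_one (by positivity) ((div_le_one hM0).mpr htM) hσ).trans
        (one_le_f hx hfl)
    · rw [f_rec x _ hfl]
      have hMfl : M ≤ ⌊t⌋₊ := Nat.le_floor htM.le
      have h1 : ∑ d ∈ Finset.Icc 2 M, (t / M) ^ σ * (d : ℝ) ^ (-σ) ≤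
          ∑ d ∈ Finset.Icc 2 ⌊t⌋₊, f x (⌊t⌋₊ / d) := by
        refine le_trans ?_ (Finset.sum_le_sum_of_subset_of_nonneg
          (Finset.Icc_subset_Icc_right hMfl) (fun d _ _ => f_nonneg hx _))
        refine Finset.sum_le_sum fun d hd => ?_
        have hd' := Finset.mem_Icc.mp hd
        have hd0 : (0 : ℝ) < d := by exact_mod_cast (by omega : 0 < d)
        have hdM : (d : ℝ) ≤ M := by exact_mod_cast hd'.2
        rw [← Nat.floor_div_natCast]
        have h2 := ih ⌊t / d⌋₊ (by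
          rw [Nat.floor_div_natCast, hN]
          exact Nat.div_lt_self (by omega) hd'.1) (t / d)
          (by rw [le_div_iff₀ hd0]; linarith) rfl
        refine le_trans (le_of_eq ?_) h2
        rw [Real.rpow_neg hd0.le, ← div_eq_mul_inv, ← Real.div_rpow (by positivity) hd0.le]
        congr 1
        field_simp
      rw [← Finset.mul_sum] at h1
      have h3 : 0 ≤ (t / M) ^ σ := by positivity
      calc (t / M) ^ σ ≤ (t / M) ^ σ * (x * ∑ d ∈ Finset.Icc 2 M, (d : ℝ) ^ (-σ)) :=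
            le_mul_of_one_le_right h3 h
        _ = x * ((t / M) ^ σ * ∑ d ∈ Finset.Icc 2 M, (d : ℝ) ^ (-σ)) := by ring
        _ ≤ x * ∑ d ∈ Finset.Icc 2 ⌊t⌋₊, f x (⌊t⌋₊ / d) := mul_le_mul_of_nonneg_left h1 hx
        _ ≤ _ := by linarith

theorem f_lower' {x σ : ℝ} (hx : 0 ≤ x) (hσ : 0 ≤ σ) {M : ℕ} (hM : 1 ≤ M)
    (h : 1 ≤ x * ∑ d ∈ Finset.Icc 2 M, (d : ℝ) ^ (-σ)) {n : ℕ} (hn : 1 ≤ n) :
    ((n : ℝ) / M) ^ σ ≤ f x n := by
  have := f_lower hx hσ hM h n (n : ℝ) (by exact_mod_cast hn) (Nat.floor_natCast n)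
  rwa [Nat.floor_natCast] at this

theorem sum_inv_sq_le (n : ℕ) : ∑ d ∈ Finset.Icc 2 n, (d : ℝ) ^ (-(2 : ℝ)) ≤ 1 := by
  have key : ∀ m : ℕ, ∑ d ∈ Finset.Icc 2 (m + 1), (d : ℝ) ^ (-(2 : ℝ)) ≤ 1 - 1 / ((m : ℝ) + 1) := by
    intro m
    induction m with
    | zero => simp
    | succ m ih =>
      rw [Finset.sum_Icc_succ_top (by omega)]
      have h1 : ((m + 1 + 1 : ℕ) : ℝ) ^ (-(2 : ℝ)) ≤ 1 / ((m : ℝ) + 1) - 1 / ((m : ℝ) + 1 + 1) := by
        rw [Real.rpow_neg (by positivity), Real.rpow_two]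
        push_cast
        rw [div_sub_div _ _ (by positivity) (by positivity), inv_eq_one_div,
          div_le_div_iff₀ (by positivity) (by positivity)]
        nlinarith [(by positivity : (0 : ℝ) ≤ (m : ℝ))]
      push_cast at h1 ⊢
      linarith
  rcases Nat.eq_zero_or_pos n with rfl | hn
  · simp
  · obtain ⟨m, rfl⟩ := Nat.exists_eq_add_of_le' hn
    have := key m
    have h2 : 0 ≤ 1 / ((m : ℝ) + 1) := by positivity
    linarith

theorem exists_limit {x : ℝ} (hx : 0 < x) :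
    ∃ l : ℝ, 1 < l ∧ Tendsto (fun n : ℕ => Real.log (f x n) / Real.log n) atTop (𝓝 l) := by
  let U : Set ℝ := {σ | 0 ≤ σ ∧ ∃ θ < 1, ∀ n : ℕ, x * ∑ d ∈ Finset.Icc 2 n, (d : ℝ) ^ (-σ) ≤ θ}
  -- nonempty
  have hne : U.Nonempty := by
    obtain ⟨k, hk⟩ := pow_unbounded_of_one_lt (2 * x) (by norm_num : (1 : ℝ) < 2)
    refine ⟨2 + k, by positivity, 1 / 2, by norm_num, fun n => ?_⟩
    have h1 : ∑ d ∈ Finset.Icc 2 n, (d : ℝ) ^ (-(2 + (k : ℝ))) ≤
        (2 ^ k)⁻¹ * ∑ d ∈ Finset.Icc 2 n, (d : ℝ) ^ (-(2 : ℝ)) := by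
      rw [Finset.mul_sum]
      refine Finset.sum_le_sum fun d hd => ?_
      have hd' := Finset.mem_Icc.mp hd
      have hd2 : (2 : ℝ) ≤ d := by exact_mod_cast hd'.1
      have hd0 : (0 : ℝ) < d := by linarith
      rw [neg_add, Real.rpow_add hd0, mul_comm]
      refine mul_le_mul_of_nonneg_right ?_ (by positivity)
      rw [Real.rpow_neg hd0.le, Real.rpow_natCast]
      exact inv_anti₀ (by positivity) (pow_le_pow_left₀ (by norm_num) hd2 k)
    have h2 := sum_inv_sq_le n
    have h3 : (0 : ℝ) < 2 ^ k := by positivity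
    have h4 : ∑ d ∈ Finset.Icc 2 n, (d : ℝ) ^ (-(2 + (k : ℝ))) ≤ (2 ^ k)⁻¹ := by
      refine h1.trans ?_
      have := mul_le_mul_of_nonneg_left h2 (inv_nonneg.mpr h3.le)
      linarith
    calc x * ∑ d ∈ Finset.Icc 2 n, (d : ℝ) ^ (-(2 + (k : ℝ))) ≤ x * (2 ^ k)⁻¹ :=
          mul_le_mul_of_nonneg_left h4 hx.le
      _ ≤ 1 / 2 := by
          rw [← div_eq_mul_inv, div_le_div_iff₀ h3 (by norm_num)]
          linarith
  have hbdd : BddBelow U := ⟨0, fun σ hσ => hσ.1⟩
  -- a number `σ₁ > 1` with finite sum `≥ 1`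
  obtain ⟨σ₁, M₁, hσ₁, hM₁⟩ : ∃ (σ₁ : ℝ) (M₁ : ℕ), 1 < σ₁ ∧
      1 ≤ x * ∑ d ∈ Finset.Icc 2 M₁, (d : ℝ) ^ (-σ₁) := by
    have hdiv := Real.tendsto_sum_range_one_div_nat_succ_atTop
    obtain ⟨m, hm⟩ := (hdiv.eventually_ge_atTop (2 / x + 1)).exists_forall_of_atTop
    have hm1 := hm (m + 2) (by omega)
    have h1 : ∑ i ∈ Finset.range (m + 2), (1 / ((i : ℝ) + 1)) =
        1 + ∑ d ∈ Finset.Icc 2 (m + 2), (d : ℝ)⁻¹ := by
      rw [Finset.sum_range_succ', add_comm]
      congr 1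
      · simp
      · rw [Finset.range_eq_Ico]
        have := Finset.sum_Ico_add' (fun d : ℕ => ((d : ℝ))⁻¹) 0 (m + 1) 2
        have h5 : Finset.Ico (0 + 2) (m + 1 + 2) = Finset.Icc 2 (m + 2) := by
          ext a; simp only [Finset.mem_Ico, Finset.mem_Icc]; omega
        rw [h5] at this
        rw [← this]
        refine Finset.sum_congr rfl fun i _ => ?_
        push_cast
        rw [one_div, add_assoc]
        norm_num
    rw [h1] at hm1
    have hM2 : (2 : ℝ) ≤ ((m + 2 : ℕ) : ℝ) := by push_cast; linarith [Nat.cast_nonneg (α := ℝ) m]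
    have hlog : 0 < Real.log ((m + 2 : ℕ) : ℝ) := Real.log_pos (by linarith)
    refine ⟨1 + Real.log 2 / Real.log ((m + 2 : ℕ) : ℝ), m + 2, ?_, ?_⟩
    · have := div_pos (Real.log_pos (by norm_num : (1 : ℝ) < 2)) hlog
      linarith
    · have h2 : ∑ d ∈ Finset.Icc 2 (m + 2), (d : ℝ)⁻¹ * (1 / 2) ≤
          ∑ d ∈ Finset.Icc 2 (m + 2),
            (d : ℝ) ^ (-(1 + Real.log 2 / Real.log ((m + 2 : ℕ) : ℝ))) := by
        refine Finset.sum_le_sum fun d hd => ?_
        have hd' := Finset.mem_Icc.mp hd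
        have hd0 : (0 : ℝ) < d := by exact_mod_cast (by omega : 0 < d)
        have hdM : (d : ℝ) ≤ ((m + 2 : ℕ) : ℝ) := by exact_mod_cast hd'.2
        rw [neg_add, Real.rpow_add hd0, Real.rpow_neg_one]
        refine mul_le_mul_of_nonneg_left ?_ (by positivity)
        have h3 : ((m + 2 : ℕ) : ℝ) ^ (-(Real.log 2 / Real.log ((m + 2 : ℕ) : ℝ))) = 1 / 2 := by
          rw [Real.rpow_neg (by linarith), Real.rpow_def_of_pos (by linarith),
            mul_div_cancel₀ _ hlog.ne', Real.exp_log (by norm_num)]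
          norm_num
        rw [← h3]
        exact Real.rpow_le_rpow_of_nonpos hd0 hdM (by
          rw [neg_nonpos]; exact div_nonneg (Real.log_nonneg (by norm_num)) hlog.le)
      rw [← Finset.sum_mul] at h2
      have h4 : 2 / x ≤ ∑ d ∈ Finset.Icc 2 (m + 2), (d : ℝ)⁻¹ := by linarith
      calc (1 : ℝ) = x * ((2 / x) * (1 / 2)) := by field_simp
        _ ≤ x * ((∑ d ∈ Finset.Icc 2 (m + 2), (d : ℝ)⁻¹) * (1 / 2)) := by gcongr
        _ ≤ _ := mul_le_mul_of_nonneg_left h2 hx.le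
  set l := sInf U with hl
  have hσ₁l : σ₁ ≤ l := by
    refine le_csInf hne fun σ hσ => ?_
    by_contra hlt
    push Not at hlt
    obtain ⟨_, θ, hθ, hU⟩ := hσ
    have h1 := hU M₁
    have h2 : ∑ d ∈ Finset.Icc 2 M₁, (d : ℝ) ^ (-σ₁) ≤ ∑ d ∈ Finset.Icc 2 M₁, (d : ℝ) ^ (-σ) := by
      refine Finset.sum_le_sum fun d hd => ?_
      have hd' := Finset.mem_Icc.mp hd
      have hd1 : (1 : ℝ) ≤ d := by exact_mod_cast (by omega : 1 ≤ d)
      exact Real.rpow_le_rpow_of_exponent_le hd1 (by linarith)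
    have h3 := mul_le_mul_of_nonneg_left h2 hx.le
    linarith
  have hl1 : 1 < l := lt_of_lt_of_le hσ₁ hσ₁l
  refine ⟨l, hl1, ?_⟩
  have hlogn : Tendsto (fun n : ℕ => Real.log n) atTop atTop :=
    Real.tendsto_log_atTop.comp tendsto_natCast_atTop_atTop
  rw [tendsto_order]
  constructor
  · -- lower bound
    intro a ha
    obtain ⟨b, hb1, hb2⟩ := exists_between (max_lt ha hl1)
    obtain ⟨σ, hσ1, hσ2⟩ := exists_between hb2
    have hb : a < b := lt_of_le_of_lt (le_max_left _ _) hb1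
    have hb' : 1 < b := lt_of_le_of_lt (le_max_right _ _) hb1
    -- `σ ∉ U`
    have hσU : σ ∉ U := fun h => absurd (csInf_le hbdd h) (by rw [← hl]; linarith)
    have h2 : ∃ M : ℕ, 1 ≤ x * ∑ d ∈ Finset.Icc 2 M, (d : ℝ) ^ (-b) := by
      by_contra hcon
      push Not at hcon
      apply hσU
      refine ⟨by linarith, (2 : ℝ) ^ (b - σ), ?_, fun n => ?_⟩
      · exact Real.rpow_lt_one_of_one_lt_of_neg (by norm_num) (by linarith)
      · have h3 : ∑ d ∈ Finset.Icc 2 n, (d : ℝ) ^ (-σ) ≤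
            (2 : ℝ) ^ (b - σ) * ∑ d ∈ Finset.Icc 2 n, (d : ℝ) ^ (-b) := by
          rw [Finset.mul_sum]
          refine Finset.sum_le_sum fun d hd => ?_
          have hd' := Finset.mem_Icc.mp hd
          have hd2 : (2 : ℝ) ≤ d := by exact_mod_cast hd'.1
          have hd0 : (0 : ℝ) < d := by linarith
          rw [show -σ = (b - σ) + (-b) by ring, Real.rpow_add hd0]
          refine mul_le_mul_of_nonneg_right ?_ (by positivity)
          exact Real.rpow_le_rpow_of_nonpos (by norm_num) hd2 (by linarith)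
        calc x * ∑ d ∈ Finset.Icc 2 n, (d : ℝ) ^ (-σ)
            ≤ x * ((2 : ℝ) ^ (b - σ) * ∑ d ∈ Finset.Icc 2 n, (d : ℝ) ^ (-b)) :=
              mul_le_mul_of_nonneg_left h3 hx.le
          _ = (2 : ℝ) ^ (b - σ) * (x * ∑ d ∈ Finset.Icc 2 n, (d : ℝ) ^ (-b)) := by ring
          _ ≤ (2 : ℝ) ^ (b - σ) * 1 :=
              mul_le_mul_of_nonneg_left (hcon n).le (by positivity)
          _ = _ := mul_one _
    obtain ⟨M, hM⟩ := h2
    have hM1 : 1 ≤ M := by
      by_contra h
      have : M = 0 := by omega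
      subst this
      simp at hM
      linarith
    have hev : ∀ᶠ n : ℕ in atTop, b * Real.log M / (b - a) < Real.log n :=
      hlogn.eventually_gt_atTop _
    filter_upwards [hev, eventually_ge_atTop 2] with n h5 hn
    have hn0 : (0 : ℝ) < n := by exact_mod_cast (by omega : 0 < n)
    have hlog : 0 < Real.log n := Real.log_pos (by exact_mod_cast (by omega : 1 < n))
    have hM0 : (0 : ℝ) < M := by exact_mod_cast hM1
    have h6 := f_lower' hx.le (by linarith : (0 : ℝ) ≤ b) hM1 hM (by omega : 1 ≤ n)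
    have h7 := Real.log_le_log (by positivity) h6
    rw [Real.log_rpow (by positivity), Real.log_div hn0.ne' hM0.ne'] at h7
    rw [lt_div_iff₀ hlog]
    rw [div_lt_iff₀ (by linarith)] at h5
    nlinarith
  · -- upper bound
    intro a ha
    obtain ⟨σ, hσU, hσa⟩ := exists_lt_of_csInf_lt hne ha
    obtain ⟨hσ0, θ, hθ, hU⟩ := hσU
    have hev : ∀ᶠ n : ℕ in atTop, Real.log ((1 - θ)⁻¹) / (a - σ) < Real.log n :=
      hlogn.eventually_gt_atTop _
    filter_upwards [hev, eventually_ge_atTop 2] with n h5 hn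
    have hn0 : (0 : ℝ) < n := by exact_mod_cast (by omega : 0 < n)
    have hlog : 0 < Real.log n := Real.log_pos (by exact_mod_cast (by omega : 1 < n))
    have h6 := f_upper hx.le hσ0 hθ hU (by omega : 1 ≤ n)
    have hf1 := one_le_f hx.le (by omega : 1 ≤ n)
    have h7 := Real.log_le_log (by linarith) h6
    have hθ' : (0 : ℝ) < (1 - θ)⁻¹ := inv_pos.mpr (by linarith)
    rw [Real.log_mul hθ'.ne' (by positivity), Real.log_rpow hn0] at h7
    rw [div_lt_iff₀ hlog]
    rw [div_lt_iff₀ (by linarith)] at h5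
    nlinarith

theorem sum_inv_le_log {m : ℕ} (hm : 1 ≤ m) : ∑ d ∈ Finset.Icc 2 m, ((d : ℝ))⁻¹ ≤ Real.log m := by
  have h := harmonic_le_one_add_log m
  obtain ⟨k, rfl⟩ := Nat.exists_eq_add_of_le' hm
  have h1 : ((harmonic (k + 1) : ℚ) : ℝ) = 1 + ∑ d ∈ Finset.Icc 2 (k + 1), ((d : ℝ))⁻¹ := by
    rw [harmonic, Finset.sum_range_succ', add_comm]
    push_cast
    congr 1
    · simp
    · rw [Finset.range_eq_Ico]
      have := Finset.sum_Ico_add' (fun d : ℕ => ((d : ℝ))⁻¹) 0 k 2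
      have h5 : Finset.Ico (0 + 2) (k + 2) = Finset.Icc 2 (k + 1) := by
        ext a; simp only [Finset.mem_Ico, Finset.mem_Icc]; omega
      rw [h5] at this
      rw [← this]
      refine Finset.sum_congr rfl fun i _ => ?_
      push_cast
      rw [add_assoc]
      norm_num
  rw [h1] at h
  linarith

theorem f_small {y : ℝ} (hy : 0 ≤ y) {n : ℕ} (_hn : 1 ≤ n) (hyn : y * Real.log n ≤ 1 / 2) {m : ℕ}
    (hm : 1 ≤ m) (hmn : m ≤ n) : f y m ≤ 1 + 2 * y * m := by
  induction m using Nat.strong_induction_on with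
  | _ m ih =>
    rw [f_rec y m hm]
    have h1 : ∑ d ∈ Finset.Icc 2 m, f y (m / d) ≤ (m - 1) + 2 * y * m * Real.log m := by
      have h2 : ∑ d ∈ Finset.Icc 2 m, f y (m / d) ≤
          ∑ d ∈ Finset.Icc 2 m, (1 + 2 * y * m * (d : ℝ)⁻¹) := by
        refine Finset.sum_le_sum fun d hd => ?_
        have hd' := Finset.mem_Icc.mp hd
        refine (ih (m / d) (Nat.div_lt_self (by omega) hd'.1) (Nat.div_pos hd'.2 (by omega))
          ((Nat.div_le_self _ _).trans hmn)).trans ?_
        have : ((m / d : ℕ) : ℝ) ≤ m * (d : ℝ)⁻¹ := by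
          rw [← div_eq_mul_inv]; exact Nat.cast_div_le
        nlinarith
      refine h2.trans ?_
      rw [Finset.sum_add_distrib, ← Finset.mul_sum, Finset.sum_const, Nat.card_Icc, nsmul_eq_mul,
        mul_one]
      have h3 : ((m + 1 - 2 : ℕ) : ℝ) = (m : ℝ) - 1 := by
        rw [Nat.cast_sub (by omega)]; push_cast; ring
      rw [h3]
      have := mul_le_mul_of_nonneg_left (sum_inv_le_log hm) (by positivity : 0 ≤ 2 * y * (m : ℝ))
      linarith
    have h4 : Real.log m ≤ Real.log n :=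
      Real.log_le_log (by exact_mod_cast hm) (by exact_mod_cast hmn)
    have h5 : y * Real.log m ≤ 1 / 2 := (mul_le_mul_of_nonneg_left h4 hy).trans hyn
    have h6 : 2 * y * m * Real.log m ≤ m := by
      have := mul_le_mul_of_nonneg_left h5 (by positivity : (0 : ℝ) ≤ 2 * m)
      linarith
    have h7 := mul_le_mul_of_nonneg_left h1 hy
    nlinarith

theorem norm_aeval_F_sub_one_le (z : ℂ) {m : ℕ} (hm : 1 ≤ m) :
    ‖aeval z (F m) - 1‖ ≤ f ‖z‖ m - 1 := by
  unfold f
  rw [F_rec m hm, map_add, map_one, map_mul, aeval_X, map_add, map_one, map_mul, aeval_X,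
    add_sub_cancel_left, add_sub_cancel_left, norm_mul]
  exact mul_le_mul_of_nonneg_left (norm_aeval_le _ _) (norm_nonneg _)

theorem Q_approx (z : ℂ) {n : ℕ} (hn : 1 ≤ n) (hz : ‖z‖ * Real.log n ≤ 1 / 2) :
    ‖Q n z - (1 - z ^ 2 * (n - 1))‖ ≤ 2 * ‖z‖ ^ 3 * n * Real.log n := by
  have h1 : Q n z - (1 - z ^ 2 * (n - 1)) =
      - (z ^ 2 * ∑ d ∈ Finset.Icc 2 n, (aeval z (F (n / d)) - 1)) := by
    rw [Q, F_rec n hn, map_add, map_one, map_mul, aeval_X, map_sum, Finset.sum_sub_distrib,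
      Finset.sum_const, Nat.card_Icc, nsmul_eq_mul]
    have h3 : ((n + 1 - 2 : ℕ) : ℂ) = (n : ℂ) - 1 := by
      rw [Nat.cast_sub (by omega)]; push_cast; ring
    rw [h3]
    ring
  rw [h1, norm_neg, norm_mul, norm_pow]
  have h2 : ‖∑ d ∈ Finset.Icc 2 n, (aeval z (F (n / d)) - 1)‖ ≤
      2 * ‖z‖ * n * Real.log n := by
    refine (norm_sum_le _ _).trans ?_
    have h3 : ∑ d ∈ Finset.Icc 2 n, ‖aeval z (F (n / d)) - 1‖ ≤
        ∑ d ∈ Finset.Icc 2 n, 2 * ‖z‖ * n * (d : ℝ)⁻¹ := by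
      refine Finset.sum_le_sum fun d hd => ?_
      have hd' := Finset.mem_Icc.mp hd
      have hnd : 1 ≤ n / d := Nat.div_pos hd'.2 (by omega)
      refine (norm_aeval_F_sub_one_le z hnd).trans ?_
      have h4 := f_small (norm_nonneg z) hn hz hnd (Nat.div_le_self _ _)
      have : ((n / d : ℕ) : ℝ) ≤ n * (d : ℝ)⁻¹ := by
        rw [← div_eq_mul_inv]; exact Nat.cast_div_le
      have h5 := mul_le_mul_of_nonneg_left this (by positivity : 0 ≤ 2 * ‖z‖)
      linarith
    refine h3.trans ?_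
    rw [← Finset.mul_sum]
    exact mul_le_mul_of_nonneg_left (sum_inv_le_log hn) (by positivity)
  calc ‖z‖ ^ 2 * ‖∑ d ∈ Finset.Icc 2 n, (aeval z (F (n / d)) - 1)‖
      ≤ ‖z‖ ^ 2 * (2 * ‖z‖ * n * Real.log n) := mul_le_mul_of_nonneg_left h2 (by positivity)
    _ = _ := by ring

/-- The largeness condition on `n` used below. -/
def Large (n : ℕ) : Prop := 3 ≤ n ∧ 192 * Real.log n ≤ √(n : ℝ)

theorem eventually_large : ∀ᶠ n : ℕ in atTop, Large n := by
  have h1 : ∀ᶠ x : ℝ in atTop, 192 * Real.log x ≤ √x := by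
    have := (isLittleO_log_rpow_atTop (by norm_num : (0 : ℝ) < 1 / 2)).def
      (by norm_num : (0 : ℝ) < 1 / 192)
    filter_upwards [this, eventually_ge_atTop 1] with x hx hx1
    rw [Real.norm_of_nonneg (Real.log_nonneg hx1), Real.norm_of_nonneg (by positivity),
      ← Real.sqrt_eq_rpow] at hx
    linarith
  filter_upwards [tendsto_natCast_atTop_atTop.eventually h1, eventually_ge_atTop 3] with n h hn
  exact ⟨hn, h⟩

theorem Large.log_ge {n : ℕ} (h : Large n) : 1 ≤ Real.log n := by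
  have h3 : (3 : ℝ) ≤ n := by exact_mod_cast h.1
  rw [Real.le_log_iff_exp_le (by linarith)]
  have := Real.exp_one_lt_d9
  linarith

theorem Large.sqrt_sq {n : ℕ} : √(n : ℝ) * √(n : ℝ) = n := Real.mul_self_sqrt (Nat.cast_nonneg n)

/-- real version of `Q` -/
noncomputable def q (n : ℕ) (x : ℝ) : ℝ := 1 + x - x * f x n

theorem ofReal_q (n : ℕ) (x : ℝ) : ((q n x : ℝ) : ℂ) = Q n x := by
  unfold q Q f
  push_cast
  congr 2
  rw [← Complex.coe_algebraMap, aeval_algebraMap_apply]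

theorem q_continuous (n : ℕ) : Continuous (q n) := by
  unfold q f
  have : Continuous fun x : ℝ => aeval x (F n) := Polynomial.continuous_aeval _
  fun_prop

theorem q_approx (x : ℝ) {n : ℕ} (hn : 1 ≤ n) (hx : |x| * Real.log n ≤ 1 / 2) :
    |q n x - (1 - x ^ 2 * (n - 1))| ≤ 2 * |x| ^ 3 * n * Real.log n := by
  have h := Q_approx (x : ℂ) hn (by simpa using hx)
  rw [← ofReal_q] at h
  have h2 : (((q n x : ℝ) : ℂ) - (1 - (x : ℂ) ^ 2 * (n - 1))) =
      ((q n x - (1 - x ^ 2 * (n - 1)) : ℝ) : ℂ) := by push_cast; ring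
  rw [h2, Complex.norm_real, Complex.norm_real, Real.norm_eq_abs, Real.norm_eq_abs] at h
  exact h

theorem q_neg_at {n : ℕ} (h : Large n) {x : ℝ} (hx : |x| = 2 / √(n : ℝ)) : q n x < 0 := by
  have hn3 : (3 : ℝ) ≤ n := by exact_mod_cast h.1
  have hL := h.log_ge
  have hs : 0 < √(n : ℝ) := Real.sqrt_pos.mpr (by linarith)
  have hss := Large.sqrt_sq (n := n)
  have hL2 := h.2
  have h1 : |x| * Real.log n ≤ 1 / 2 := by
    rw [hx, div_mul_eq_mul_div, div_le_div_iff₀ hs (by norm_num)]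
    linarith
  have h2 := q_approx x (by linarith [h.1] : 1 ≤ n) h1
  have h3 : x ^ 2 = 4 / n := by
    rw [← sq_abs, hx, div_pow, Real.sq_sqrt (by linarith)]; norm_num
  have h4 : 2 * |x| ^ 3 * n * Real.log n ≤ 1 / 12 := by
    rw [hx]
    have : 2 * (2 / √(n : ℝ)) ^ 3 * n * Real.log n = 16 * Real.log n / √(n : ℝ) := by
      rw [div_pow]
      field_simp
      rw [show √(n : ℝ) ^ 2 = n by rw [sq, hss]]
      ring
    rw [this, div_le_div_iff₀ hs (by norm_num)]
    linarith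
  rw [h3] at h2
  have h5 := (abs_le.mp h2).2
  have h6 : 4 / (n : ℝ) * (n - 1) ≥ 8 / 3 := by
    rw [ge_iff_le, div_mul_eq_mul_div, div_le_div_iff₀ (by norm_num) (by linarith)]
    linarith
  linarith

theorem inv_of_q_zero {n : ℕ} (h : Large n) {x : ℝ} (hx0 : x ≠ 0) (hx : |x| ≤ 2 / √(n : ℝ))
    (hq : q n x = 0) : |(|x⁻¹| - √(n : ℝ))| ≤ 5 * Real.log n := by
  have hn3 : (3 : ℝ) ≤ n := by exact_mod_cast h.1
  have hL := h.log_ge
  have hs : 0 < √(n : ℝ) := Real.sqrt_pos.mpr (by linarith)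
  have hs1 : 1 ≤ √(n : ℝ) := Real.one_le_sqrt.mpr (by linarith)
  have hss := Large.sqrt_sq (n := n)
  have hL2 := h.2
  have hxpos : 0 < |x| := abs_pos.mpr hx0
  have h1 : |x| * Real.log n ≤ 1 / 2 := by
    refine (mul_le_mul_of_nonneg_right hx (by linarith)).trans ?_
    rw [div_mul_eq_mul_div, div_le_div_iff₀ hs (by norm_num)]
    linarith
  have h2 := q_approx x (by linarith [h.1] : 1 ≤ n) h1
  rw [hq] at h2
  set w := |x⁻¹| with hw
  have hwx : w * |x| = 1 := by rw [hw, abs_inv]; exact inv_mul_cancel₀ hxpos.ne'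
  have hwpos : 0 < w := by rw [hw]; exact abs_pos.mpr (inv_ne_zero hx0)
  have h3 : |w ^ 2 - n| ≤ 1 + 4 * √(n : ℝ) * Real.log n := by
    have h4 : |w ^ 2 - (n - 1)| ≤ 2 * |x| * n * Real.log n := by
      have e1 : w ^ 2 - (n - 1) = - (w ^ 2 * (0 - (1 - x ^ 2 * (n - 1)))) := by
        have : w ^ 2 * x ^ 2 = 1 := by
          rw [← sq_abs x, ← mul_pow, hwx, one_pow]
        linear_combination ((n : ℝ) - 1) * this
      rw [e1, abs_neg, abs_mul, abs_of_nonneg (by positivity : 0 ≤ w ^ 2)]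
      calc w ^ 2 * |0 - (1 - x ^ 2 * (n - 1))| ≤ w ^ 2 * (2 * |x| ^ 3 * n * Real.log n) :=
            mul_le_mul_of_nonneg_left h2 (by positivity)
        _ = 2 * ((w * |x|) ^ 2 * |x|) * n * Real.log n := by ring
        _ = _ := by rw [hwx]; ring
    have h5 : 2 * |x| * n * Real.log n ≤ 4 * √(n : ℝ) * Real.log n := by
      have h6 : |x| * n ≤ 2 * √(n : ℝ) := by
        calc |x| * n ≤ 2 / √(n : ℝ) * n := mul_le_mul_of_nonneg_right hx (by linarith)
          _ = 2 / √(n : ℝ) * (√(n : ℝ) * √(n : ℝ)) := by rw [hss]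
          _ = 2 * √(n : ℝ) := by field_simp
      have := mul_le_mul_of_nonneg_right h6 (by linarith : 0 ≤ Real.log n)
      nlinarith
    have h7 : |w ^ 2 - n| ≤ |w ^ 2 - (n - 1)| + 1 := by
      have : w ^ 2 - n = (w ^ 2 - (n - 1)) + (-1) := by ring
      rw [this]
      refine (abs_add_le _ _).trans ?_
      simp
    linarith
  have h8 : |w - √(n : ℝ)| * √(n : ℝ) ≤ 1 + 4 * √(n : ℝ) * Real.log n := by
    have h9 : w ^ 2 - n = (w - √(n : ℝ)) * (w + √(n : ℝ)) := by
      linear_combination hss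
    rw [h9, abs_mul, abs_of_pos (by linarith : 0 < w + √(n : ℝ))] at h3
    refine le_trans ?_ h3
    exact mul_le_mul_of_nonneg_left (by linarith) (abs_nonneg _)
  have h10 : |w - √(n : ℝ)| * √(n : ℝ) ≤ (5 * Real.log n) * √(n : ℝ) := by
    refine h8.trans ?_
    nlinarith [mul_le_mul hs1 hL (by norm_num) hs.le]
  exact le_of_mul_le_mul_right h10 hs

/-- existence of the two real zeros -/
theorem exists_real_zeros {n : ℕ} (h : Large n) :
    (∃ x : ℝ, 0 < x ∧ x ≤ 2 / √(n : ℝ) ∧ q n x = 0) ∧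
    (∃ x : ℝ, x < 0 ∧ |x| ≤ 2 / √(n : ℝ) ∧ q n x = 0) := by
  have hn3 : (3 : ℝ) ≤ n := by exact_mod_cast h.1
  have hs : 0 < √(n : ℝ) := Real.sqrt_pos.mpr (by linarith)
  have hb : 0 < 2 / √(n : ℝ) := by positivity
  have h0 : q n 0 = 1 := by simp [q]
  constructor
  · have h1 := q_neg_at h (x := 2 / √(n : ℝ)) (abs_of_pos hb)
    have := intermediate_value_Icc' hb.le (q_continuous n).continuousOn
    have hmem : (0 : ℝ) ∈ Set.Icc (q n (2 / √(n : ℝ))) (q n 0) := ⟨h1.le, by rw [h0]; norm_num⟩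
    obtain ⟨x, hx, hqx⟩ := this hmem
    refine ⟨x, ?_, hx.2, hqx⟩
    rcases eq_or_lt_of_le hx.1 with h2 | h2
    · rw [← h2, h0] at hqx; norm_num at hqx
    · exact h2
  · have h1 := q_neg_at h (x := -(2 / √(n : ℝ))) (by rw [abs_neg]; exact abs_of_pos hb)
    have := intermediate_value_Icc (by linarith : -(2 / √(n : ℝ)) ≤ 0)
      (q_continuous n).continuousOn
    have hmem : (0 : ℝ) ∈ Set.Icc (q n (-(2 / √(n : ℝ)))) (q n 0) := ⟨h1.le, by rw [h0]; norm_num⟩
    obtain ⟨x, hx, hqx⟩ := this hmem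
    have hxlt : x < 0 := by
      rcases eq_or_lt_of_le hx.2 with h2 | h2
      · rw [h2, h0] at hqx; norm_num at hqx
      · exact h2
    refine ⟨x, hxlt, ?_, hqx⟩
    rw [abs_of_neg hxlt]
    linarith [hx.1]

theorem Q_prod_filter (n : ℕ) (hn : 1 ≤ n) (z : ℂ) :
    Q n z = (((redheffer n).charpoly.roots.filter (fun μ => μ ≠ 1)).map
      (fun μ => 1 - (μ - 1) * z)).prod := by
  rw [Q_prod n hn]
  induction (redheffer n).charpoly.roots using Multiset.induction_on with
  | empty => simp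
  | cons a s ih =>
    rw [Multiset.map_cons, Multiset.prod_cons, ih]
    by_cases ha : a = 1
    · rw [Multiset.filter_cons_of_neg (p := fun μ => μ ≠ (1 : ℂ)) _ (by simpa using ha), ha]
      simp
    · rw [Multiset.filter_cons_of_pos (p := fun μ => μ ≠ (1 : ℂ)) _ ha, Multiset.map_cons,
        Multiset.prod_cons]

set_option maxHeartbeats 2000000 in
/-- The structure of the spectrum for large `n`. -/
theorem decomp {n : ℕ} (h : Large n) : ∃ (ρ₁ ρ₂ : ℝ) (T : Multiset ℂ),
    (redheffer n).charpoly.roots =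
      Multiset.replicate (n - Nat.log 2 n - 1) 1 + {(ρ₁ : ℂ), (ρ₂ : ℂ)} + T ∧
    |ρ₁ - 1 - √(n : ℝ)| ≤ 5 * Real.log n ∧ |ρ₂ - 1 + √(n : ℝ)| ≤ 5 * Real.log n ∧
    (∀ μ ∈ T, ‖μ - 1‖ ≤ 8 * Real.log n) ∧
    (∀ z, Q n z = (1 - (ρ₁ - 1) * z) * (1 - (ρ₂ - 1) * z) *
      (T.map (fun μ => 1 - (μ - 1) * z)).prod) ∧ T.card + 1 = Nat.log 2 n := by
  have hn3 : (3 : ℝ) ≤ n := by exact_mod_cast h.1
  have hn2 : 2 ≤ n := by have := h.1; omega
  have hL := h.log_ge
  have hL2 := h.2
  have hs : 0 < √(n : ℝ) := Real.sqrt_pos.mpr (by linarith)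
  have hss := Large.sqrt_sq (n := n)
  obtain ⟨⟨x, hx0, hx, hqx⟩, ⟨y, hy0, hy, hqy⟩⟩ := exists_real_zeros h
  have hX := inv_of_q_zero h hx0.ne' (by rwa [abs_of_pos hx0]) hqx
  have hY := inv_of_q_zero h hy0.ne hy hqy
  rw [abs_of_pos (inv_pos.mpr hx0)] at hX
  rw [abs_of_neg (inv_lt_zero.mpr hy0)] at hY
  set W := (redheffer n).charpoly.roots.filter (fun μ => μ ≠ 1) with hW
  have hmx : (1 + (x : ℂ)⁻¹) ∈ W := by
    rw [hW, Multiset.mem_filter]
    refine ⟨mem_roots_of_Q n (by omega) x (by exact_mod_cast hx0.ne') ?_, ?_⟩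
    · rw [← ofReal_q, hqx]; simp
    · simp [hx0.ne']
  have hmy : (1 + (y : ℂ)⁻¹) ∈ W := by
    rw [hW, Multiset.mem_filter]
    refine ⟨mem_roots_of_Q n (by omega) y (by exact_mod_cast hy0.ne) ?_, ?_⟩
    · rw [← ofReal_q, hqy]; simp
    · simp [hy0.ne]
  obtain ⟨W', hW'⟩ := Multiset.exists_cons_of_mem hmx
  have hne : (1 + (y : ℂ)⁻¹) ≠ 1 + (x : ℂ)⁻¹ := by
    intro he
    have he' : y⁻¹ = x⁻¹ := by
      have := add_left_cancel he
      exact_mod_cast this
    have h1 := inv_pos.mpr hx0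
    have h2 := inv_lt_zero.mpr hy0
    linarith
  have hmy' : (1 + (y : ℂ)⁻¹) ∈ W' := by
    rw [hW', Multiset.mem_cons] at hmy
    exact hmy.resolve_left hne
  obtain ⟨T, hT⟩ := Multiset.exists_cons_of_mem hmy'
  have hQ : ∀ z, Q n z = (1 - ((1 + x⁻¹ : ℝ) - 1) * z) * (1 - ((1 + y⁻¹ : ℝ) - 1) * z) *
      (T.map (fun μ => 1 - (μ - 1) * z)).prod := by
    intro z
    rw [Q_prod_filter n (by omega), ← hW, hW', hT, Multiset.map_cons, Multiset.prod_cons,
      Multiset.map_cons, Multiset.prod_cons, ← mul_assoc]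
    push_cast
    ring
  refine ⟨1 + x⁻¹, 1 + y⁻¹, T, ?_, ?_, ?_, ?_, hQ, ?_⟩
  · rw [roots_eq n hn2, ← hW, hW', hT, add_assoc]
    congr 1
    push_cast
    rw [Multiset.insert_eq_cons, Multiset.cons_add, Multiset.singleton_add]
  · rw [add_sub_cancel_left]; exact hX
  · rw [add_sub_cancel_left, abs_sub_comm, show √(n : ℝ) = √(n : ℝ) from rfl] at *
    have : y⁻¹ + √(n : ℝ) = √(n : ℝ) - -y⁻¹ := by ring
    rw [this]; exact hY
  · intro μ hμ
    by_contra hcon
    push Not at hcon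
    set a := μ - 1 with ha
    have hapos : 0 < ‖a‖ := by linarith
    have ha0 : a ≠ 0 := norm_pos_iff.mp hapos
    obtain ⟨T', hT'⟩ := Multiset.exists_cons_of_mem hμ
    -- first `‖a‖ ≥ √n / 2`
    have hza : ‖a⁻¹‖ * ‖a‖ = 1 := by
      rw [← norm_mul, inv_mul_cancel₀ ha0, norm_one]
    have hzlog : ‖a⁻¹‖ * Real.log n ≤ 1 / 8 := by
      have h1 : ‖a⁻¹‖ * (8 * Real.log n) ≤ ‖a⁻¹‖ * ‖a‖ :=
        mul_le_mul_of_nonneg_left hcon.le (norm_nonneg _)
      rw [hza] at h1
      linarith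
    have hQa : Q n a⁻¹ = 0 := by
      rw [hQ, hT', Multiset.map_cons, Multiset.prod_cons, ← ha, mul_inv_cancel₀ ha0]
      ring
    have hA : √(n : ℝ) / 2 ≤ ‖a‖ := by
      have h1 := Q_approx a⁻¹ (by omega : 1 ≤ n) (by linarith)
      rw [hQa] at h1
      have h2 : ‖a⁻¹‖ ^ 2 * (n - 1) ≤ 1 + 2 * ‖a⁻¹‖ ^ 3 * n * Real.log n := by
        have h3 : ‖a⁻¹‖ ^ 2 * ((n : ℝ) - 1) = ‖(a⁻¹) ^ 2 * ((n : ℂ) - 1)‖ := by
          rw [norm_mul, norm_pow]
          congr 1
          have : ((n : ℂ) - 1) = (((n : ℝ) - 1 : ℝ) : ℂ) := by push_cast; ring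
          rw [this, Complex.norm_real, Real.norm_of_nonneg (by linarith)]
        rw [h3]
        have h4 : (a⁻¹) ^ 2 * ((n : ℂ) - 1) = 1 + (0 - (1 - (a⁻¹) ^ 2 * ((n : ℂ) - 1))) := by ring
        rw [h4]
        refine (norm_add_le _ _).trans ?_
        rw [norm_one]
        linarith
      have h5 : 2 * ‖a⁻¹‖ ^ 3 * n * Real.log n ≤ ‖a⁻¹‖ ^ 2 * n / 4 := by
        have := mul_le_mul_of_nonneg_left hzlog (by positivity : 0 ≤ 2 * ‖a⁻¹‖ ^ 2 * (n : ℝ))
        nlinarith
      have h6 : ‖a⁻¹‖ ^ 2 * n ≤ 4 := by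
        have h7 : ‖a⁻¹‖ ^ 2 * n * (5 / 12) ≤ ‖a⁻¹‖ ^ 2 * (n - 1) - ‖a⁻¹‖ ^ 2 * n / 4 := by
          have : ‖a⁻¹‖ ^ 2 * 1 ≤ ‖a⁻¹‖ ^ 2 * (n / 3) :=
            mul_le_mul_of_nonneg_left (by linarith) (by positivity)
          nlinarith
        nlinarith
      have h8 : (n : ℝ) ≤ 4 * ‖a‖ ^ 2 := by
        have h9 : ‖a⁻¹‖ ^ 2 * ‖a‖ ^ 2 = 1 := by rw [← mul_pow, hza, one_pow]
        have h10 := mul_le_mul_of_nonneg_right h6 (by positivity : 0 ≤ ‖a‖ ^ 2)
        calc (n : ℝ) = ‖a⁻¹‖ ^ 2 * n * ‖a‖ ^ 2 := by linear_combination (-(n : ℝ)) * h9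
          _ ≤ _ := h10
      rw [div_le_iff₀ (by norm_num)]
      refine Real.sqrt_le_iff.mpr ⟨by positivity, by nlinarith⟩
    -- max modulus
    set r := 1 / (8 * Real.log n) with hr
    have hr0 : 0 < r := by positivity
    have hrn : 24 ≤ r * √(n : ℝ) := by
      rw [hr, one_div, inv_mul_eq_div, le_div_iff₀ (by linarith)]
      linarith
    have hrlog : r * Real.log n = 1 / 8 := by
      rw [hr]; field_simp
    have hG := Complex.norm_le_of_forall_mem_frontier_norm_le (U := Metric.ball (0 : ℂ) r)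
      (f := fun z => (T'.map (fun μ => 1 - (μ - 1) * z)).prod) Metric.isBounded_ball
      (C := 1153 / 1331) ?_ ?_ (z := 0) (subset_closure (Metric.mem_ball_self hr0))
    · simp only [mul_zero, sub_zero, Multiset.map_const', Multiset.prod_replicate, one_pow,
        norm_one] at hG
      norm_num at hG
    · refine Differentiable.diffContOnCl ?_
      have : ∀ S : Multiset ℂ, Differentiable ℂ
          (fun z => (S.map (fun μ => 1 - (μ - 1) * z)).prod) := by
        intro S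
        induction S using Multiset.induction_on with
        | empty => simp
        | cons b S ih =>
          simp only [Multiset.map_cons, Multiset.prod_cons]
          exact Differentiable.mul (by fun_prop) ih
      exact this T'
    · intro z hz
      rw [frontier_ball _ hr0.ne', mem_sphere_zero_iff_norm] at hz
      have h1 := Q_approx z (by omega : 1 ≤ n) (by rw [hz, hrlog]; norm_num)
      have hQle : ‖Q n z‖ ≤ 1 + 2 * (r * √(n : ℝ)) ^ 2 := by
        have h2 : Q n z = (Q n z - (1 - z ^ 2 * (n - 1))) + (1 - z ^ 2 * (n - 1)) := by ring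
        rw [h2]
        refine (norm_add_le _ _).trans ?_
        have h3 : ‖(1 - z ^ 2 * ((n : ℂ) - 1))‖ ≤ 1 + r ^ 2 * (n - 1) := by
          refine (norm_sub_le _ _).trans ?_
          rw [norm_one, norm_mul, norm_pow, hz]
          have : ((n : ℂ) - 1) = (((n : ℝ) - 1 : ℝ) : ℂ) := by push_cast; ring
          rw [this, Complex.norm_real, Real.norm_of_nonneg (by linarith)]
        rw [hz] at h1
        have h4 : 2 * r ^ 3 * n * Real.log n = r ^ 2 * n / 4 := by
          calc 2 * r ^ 3 * n * Real.log n = 2 * r ^ 2 * n * (r * Real.log n) := by ring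
            _ = _ := by rw [hrlog]; ring
        rw [h4] at h1
        have h5 : (r * √(n : ℝ)) ^ 2 = r ^ 2 * n := by rw [mul_pow, sq (√(n : ℝ)), hss]
        rw [h5]
        nlinarith [sq_nonneg r]
      have hfac : ∀ b : ℂ, √(n : ℝ) / 2 ≤ ‖b‖ → r * √(n : ℝ) / 2 - 1 ≤ ‖1 - b * z‖ := by
        intro b hb
        have h2 : ‖b * z‖ - ‖(1 : ℂ)‖ ≤ ‖1 - b * z‖ := by
          rw [norm_sub_rev]
          exact norm_sub_norm_le _ _
        rw [norm_mul, hz, norm_one] at h2
        have := mul_le_mul_of_nonneg_right hb hr0.le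
        linarith
      have hX' : √(n : ℝ) / 2 ≤ ‖(((1 + x⁻¹ : ℝ) : ℂ) - 1)‖ := by
        have : (((1 + x⁻¹ : ℝ) : ℂ) - 1) = ((x⁻¹ : ℝ) : ℂ) := by push_cast; ring
        rw [this, Complex.norm_real, Real.norm_of_nonneg (inv_pos.mpr hx0).le]
        have := (abs_le.mp hX).1
        linarith
      have hY' : √(n : ℝ) / 2 ≤ ‖(((1 + y⁻¹ : ℝ) : ℂ) - 1)‖ := by
        have : (((1 + y⁻¹ : ℝ) : ℂ) - 1) = ((y⁻¹ : ℝ) : ℂ) := by push_cast; ring
        rw [this, Complex.norm_real, Real.norm_of_nonpos (inv_lt_zero.mpr hy0).le]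
        have := (abs_le.mp hY).1
        linarith
      have hb1 := hfac _ hX'
      have hb2 := hfac _ hY'
      have hb3 := hfac _ hA
      rw [hQ z, hT', Multiset.map_cons, Multiset.prod_cons, norm_mul, norm_mul, norm_mul,
        ← ha] at hQle
      set b := r * √(n : ℝ) / 2 - 1 with hb
      have hb11 : 11 ≤ b := by linarith
      have hrb : r * √(n : ℝ) = 2 * (b + 1) := by rw [hb]; ring
      rw [hrb] at hQle
      set G := ‖(T'.map (fun μ => 1 - (μ - 1) * z)).prod‖ with hGdef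
      have hG0 : 0 ≤ G := norm_nonneg _
      have h6 : b * b * (b * G) ≤ 1 + 2 * (2 * (b + 1)) ^ 2 := by
        refine le_trans ?_ hQle
        have hb0 : 0 ≤ b := by linarith
        exact mul_le_mul (mul_le_mul hb1 hb2 hb0 (norm_nonneg _))
          (mul_le_mul_of_nonneg_right hb3 hG0) (mul_nonneg hb0 hG0)
          (mul_nonneg (norm_nonneg _) (norm_nonneg _))
      have h7 : 1 + 2 * (2 * (b + 1)) ^ 2 ≤ 1153 / 1331 * (b * b * b) := by
        obtain ⟨c, hc⟩ : ∃ c, c = b - 11 := ⟨_, rfl⟩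
        have hc0 : 0 ≤ c := by linarith
        have hbc : b = c + 11 := by linarith
        have h9 : 0 ≤ 1153 / 1331 * c ^ 3 + 20 * c ^ 2 + 122 * c := by positivity
        rw [hbc]
        nlinarith [sq_nonneg c, h9]
      have h8 : b * b * b * G ≤ b * b * b * (1153 / 1331) := by
        calc b * b * b * G = b * b * (b * G) := by ring
          _ ≤ _ := h6
          _ ≤ _ := h7
          _ = _ := by ring
      exact le_of_mul_le_mul_left h8 (by positivity)
  · have h1 := card_ne_one n hn2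
    rw [← hW, hW', hT, Multiset.card_cons, Multiset.card_cons] at h1
    omega

/-- The values `P n (z)` at squarefree `n` with `m` prime factors. -/
noncomputable def w (z : ℂ) : ℕ → ℂ
  | 0 => 1
  | (m + 1) => z * ∑ j : Fin (m + 1), ((m + 1).choose j : ℂ) * w z j

theorem w_zero (z : ℂ) : w z 0 = 1 := by rw [w]
theorem w_succ (z : ℂ) (m : ℕ) :
    w z (m + 1) = z * ∑ j ∈ Finset.range (m + 1), ((m + 1).choose j : ℂ) * w z j := by
  rw [w, Finset.sum_range]

theorem w_rel (z : ℂ) (m : ℕ) :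
    (1 + z) * w z m - z * ∑ j ∈ Finset.range (m + 1), (m.choose j : ℂ) * w z j =
      if m = 0 then 1 else 0 := by
  rcases m with _ | m
  · simp [w_zero]
  · rw [Finset.sum_range_succ, Nat.choose_self, if_neg (by omega), w_succ z m]
    push_cast
    ring

theorem sum_divisors_sq {n : ℕ} (hn : Squarefree n) (g : ℕ → ℂ) :
    ∑ d ∈ n.divisors, g d.primeFactors.card =
      ∑ j ∈ Finset.range (n.primeFactors.card + 1), (n.primeFactors.card.choose j : ℂ) * g j := by
  rw [← Nat.divisors_filter_squarefree_of_squarefree hn,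
    Nat.sum_divisors_filter_squarefree hn.ne_zero]
  have h1 : (UniqueFactorizationMonoid.normalizedFactors n).toFinset = n.primeFactors := by
    rw [Nat.factors_eq]; rfl
  rw [h1]
  have h2 : ∀ t ∈ n.primeFactors.powerset, g (t.val.prod).primeFactors.card = g t.card := by
    intro t ht
    have h3 : (t.val.prod).primeFactors = t := by
      have := Nat.primeFactors_prod (s := t) (fun p hp =>
        Nat.prime_of_mem_primeFactors (Finset.mem_powerset.mp ht hp))
      rw [Finset.prod_val]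
      simpa using this
    rw [h3]
  rw [Finset.sum_congr rfl h2, Finset.sum_powerset_apply_card (fun j => g j)]
  refine Finset.sum_congr rfl fun j _ => ?_
  rw [nsmul_eq_mul]

theorem aeval_P_squarefree (z : ℂ) (m : ℕ) :
    ∀ n : ℕ, Squarefree n → n.primeFactors.card = m → aeval z (P n) = w z m := by
  induction m using Nat.strong_induction_on with
  | _ m ih =>
    intro n hn hm
    rcases Nat.eq_zero_or_pos m with rfl | hm0
    · have : n = 1 := by
        rw [Finset.card_eq_zero, Nat.primeFactors_eq_empty] at hm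
        rcases hm with h | h
        · exact absurd h hn.ne_zero
        · exact h
      rw [this, P_one, w_zero, map_one]
    · have hn2 : 2 ≤ n := by
        by_contra h
        have : n = 0 ∨ n = 1 := by omega
        rcases this with rfl | rfl <;> simp at hm <;> omega
      have h1 := w_rel z m
      rw [if_neg (by omega), ← hm, ← sum_divisors_sq hn (w z), hm,
        ← Nat.cons_self_properDivisors hn.ne_zero, Finset.sum_cons, hm] at h1
      rw [aeval_P_rec z hn2]
      have h2 : ∀ e ∈ n.properDivisors, aeval z (P e) = w z e.primeFactors.card := by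
        intro e he
        rw [Nat.mem_properDivisors] at he
        refine ih _ ?_ e (hn.squarefree_of_dvd he.1) rfl
        rw [← hm]
        refine Finset.card_lt_card ?_
        refine ⟨Nat.primeFactors_mono he.1 hn.ne_zero, fun hsub => ?_⟩
        have h3 : n = e := by
          rw [← Nat.prod_primeFactors_of_squarefree hn,
            ← Nat.prod_primeFactors_of_squarefree (hn.squarefree_of_dvd he.1)]
          congr 1
          exact Finset.Subset.antisymm hsub (Nat.primeFactors_mono he.1 hn.ne_zero)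
        omega
      rw [Finset.sum_congr rfl h2]
      linear_combination (-1 : ℂ) * h1

/-- If the exponential generating function of `w z` is entire we get a contradiction. -/
theorem not_summable_all (z : ℂ) (hz : z ≠ 0) (hz1 : 1 + z ≠ 0)
    (h : ∀ t : ℂ, Summable fun m : ℕ => ‖w z m * t ^ m / (m.factorial : ℂ)‖) : False := by
  set t := Complex.log ((1 + z) / z) with ht
  have hexp : Complex.exp t = (1 + z) / z := Complex.exp_log (div_ne_zero hz1 hz)
  have h1 := h t
  have h2 : Summable fun m : ℕ => ‖t ^ m / (m.factorial : ℂ)‖ :=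
    NormedSpace.norm_expSeries_div_summable t
  have h3 := tsum_mul_tsum_eq_tsum_sum_antidiagonal_of_summable_norm h1 h2
  have h4 : (∑' m : ℕ, t ^ m / (m.factorial : ℂ)) = Complex.exp t := by
    rw [Complex.exp_eq_exp_ℂ, NormedSpace.exp_eq_tsum_div]
  rw [h4] at h3
  set E := ∑' m : ℕ, w z m * t ^ m / (m.factorial : ℂ) with hE
  have h5 : ∀ m : ℕ, ∑ kl ∈ antidiagonal m,
      w z kl.1 * t ^ kl.1 / (kl.1.factorial : ℂ) * (t ^ kl.2 / (kl.2.factorial : ℂ)) =
      (∑ j ∈ Finset.range (m + 1), (m.choose j : ℂ) * w z j) * t ^ m / (m.factorial : ℂ) := by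
    intro m
    rw [Finset.Nat.sum_antidiagonal_eq_sum_range_succ_mk, Finset.sum_mul, Finset.sum_div]
    refine Finset.sum_congr rfl fun j hj => ?_
    have hj' : j ≤ m := by rw [Finset.mem_range] at hj; omega
    have h6 : (m.choose j : ℂ) * ((j.factorial : ℂ) * ((m - j).factorial : ℂ)) =
        (m.factorial : ℂ) := by
      rw [← mul_assoc]; exact_mod_cast Nat.choose_mul_factorial_mul_factorial hj'
    have h7 : (j.factorial : ℂ) ≠ 0 := by exact_mod_cast j.factorial_ne_zero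
    have h8 : ((m - j).factorial : ℂ) ≠ 0 := by exact_mod_cast (m - j).factorial_ne_zero
    have h9 : (m.factorial : ℂ) ≠ 0 := by exact_mod_cast m.factorial_ne_zero
    have h10 : t ^ m = t ^ j * t ^ (m - j) := by rw [← pow_add]; congr 1; omega
    simp only
    rw [h10]
    rw [div_mul_div_comm, div_eq_div_iff (mul_ne_zero h7 h8) h9, ← h6]
    ring
  have h6 : Summable fun m : ℕ => w z m * t ^ m / (m.factorial : ℂ) := h1.of_norm
  have h7 : Summable fun m : ℕ => (∑ j ∈ Finset.range (m + 1), (m.choose j : ℂ) * w z j) * t ^ m /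
      (m.factorial : ℂ) := by
    have := (summable_norm_sum_mul_antidiagonal_of_summable_norm h1 h2).of_norm
    simpa only [h5] using this
  rw [tsum_congr h5] at h3
  have h8 : (1 + z) * E - z * (E * Complex.exp t) = 1 := by
    rw [h3, hE, ← tsum_mul_left, ← tsum_mul_left, ← Summable.tsum_sub (h6.mul_left _)
      (h7.mul_left _)]
    have h9 : ∀ m : ℕ, (1 + z) * (w z m * t ^ m / (m.factorial : ℂ)) -
        z * ((∑ j ∈ Finset.range (m + 1), (m.choose j : ℂ) * w z j) * t ^ m / (m.factorial : ℂ)) =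
        if m = 0 then 1 else 0 := by
      intro m
      have h10 := w_rel z m
      have h11 : (1 + z) * (w z m * t ^ m / (m.factorial : ℂ)) -
        z * ((∑ j ∈ Finset.range (m + 1), (m.choose j : ℂ) * w z j) * t ^ m / (m.factorial : ℂ)) =
        ((1 + z) * w z m - z * ∑ j ∈ Finset.range (m + 1), (m.choose j : ℂ) * w z j) * t ^ m /
          (m.factorial : ℂ) := by ring
      rw [h11, h10]
      rcases m with _ | m
      · simp
      · simp
    rw [tsum_congr h9, tsum_ite_eq]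
  rw [hexp] at h8
  have h9 : z * (E * ((1 + z) / z)) = (1 + z) * E := by field_simp
  rw [h9, sub_self] at h8
  exact zero_ne_one h8

/-- Chebyshev: the `m`-th prime is at most `(m+1)^(1/(1-δ))` for large `m`. -/
theorem nth_prime_bound {δ : ℝ} (hδ : 0 < δ) :
    ∀ᶠ m : ℕ in atTop, ((Nat.nth Nat.Prime m : ℕ) : ℝ) ^ (1 - δ) ≤ (m : ℝ) + 1 := by
  have h1 : ∀ᶠ x : ℝ in atTop, x ^ (1 - δ) ≤ (x * Real.log 2 - Real.log (x + 1)) / Real.log x := by
    have h2 := (isLittleO_log_rpow_atTop hδ).def (by norm_num : (0 : ℝ) < 1 / 4)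
    have h3 := (isLittleO_log_rpow_atTop (by norm_num : (0 : ℝ) < 1)).def
      (by norm_num : (0 : ℝ) < 1 / 8)
    have h4 := tendsto_atTop_add_const_right atTop (1 : ℝ) tendsto_id
    have h5 := h4.eventually h3
    filter_upwards [h2, h5, eventually_ge_atTop 3] with x hx1 hx2 hx3
    have hx0 : 0 < x := by linarith
    have hlog : 0 < Real.log x := Real.log_pos (by linarith)
    have hlog1 : 0 < Real.log (x + 1) := Real.log_pos (by linarith)
    simp only [id, Real.rpow_one] at hx2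
    rw [Real.norm_of_nonneg hlog.le, Real.norm_of_nonneg (by positivity)] at hx1
    rw [Real.norm_of_nonneg hlog1.le, Real.norm_of_nonneg (by positivity)] at hx2
    rw [le_div_iff₀ hlog]
    have h6 : x ^ (1 - δ) * Real.log x ≤ x / 4 := by
      calc x ^ (1 - δ) * Real.log x ≤ x ^ (1 - δ) * (1 / 4 * x ^ δ) :=
            mul_le_mul_of_nonneg_left hx1 (by positivity)
        _ = x ^ (1 - δ) * x ^ δ / 4 := by ring
        _ = x / 4 := by rw [← Real.rpow_add hx0]; simp
    have h7 := Real.log_two_gt_d9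
    nlinarith
  have h2 : Tendsto (fun m : ℕ => ((Nat.nth Nat.Prime m : ℕ) : ℝ)) atTop atTop :=
    tendsto_natCast_atTop_atTop.comp (Nat.nth_strictMono Nat.infinite_setOfPred_prime).tendsto_atTop
  filter_upwards [h2.eventually h1] with m hm
  refine hm.trans ?_
  have h3 := Chebyshev.pi_ge (Nat.nth Nat.Prime m)
  refine h3.trans ?_
  have h4 : Nat.primeCounting (Nat.nth Nat.Prime m) = m + 1 := by
    rw [Nat.primeCounting, Nat.primeCounting', Nat.count_succ, if_pos (Nat.prime_nth_prime m)]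
    congr 1
    exact Nat.primeCounting'_nth_eq m
  rw [h4]
  push_cast
  exact le_rfl

theorem w_bound {z : ℂ} {A ε : ℝ} (hA : 0 ≤ A) (hε : 0 < ε) (hε1 : ε < 1)
    (h : ∀ᶠ n : ℕ in atTop, ‖aeval z (P n)‖ ≤ A * (n : ℝ) ^ (1 - ε)) :
    ∀ᶠ m : ℕ in atTop, ‖w z m‖ ≤ A * (((m : ℝ) + 1) ^ ((1 - ε) / (1 - ε / 2))) ^ m := by
  obtain ⟨n₀, hn₀⟩ := eventually_atTop.mp h
  filter_upwards [nth_prime_bound (δ := ε / 2) (by linarith), eventually_ge_atTop n₀] with m hm hmn
  set p := Nat.nth Nat.Prime m with hp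
  have hpp : p.Prime := Nat.prime_nth_prime m
  set S := p.primesBelow with hS
  have hScard : S.card = m := by
    rw [hS, Nat.primesBelow_card_eq_primeCounting', hp]
    exact Nat.primeCounting'_nth_eq m
  have hSprime : ∀ q ∈ S, q.Prime := fun q hq => Nat.prime_of_mem_primesBelow hq
  set n := ∏ q ∈ S, q with hn
  have hpf : n.primeFactors = S := Nat.primeFactors_prod hSprime
  have hnpos : 0 < n := Finset.prod_pos fun q hq => (hSprime q hq).pos
  have hsq : Squarefree n := by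
    refine Finset.squarefree_prod_of_pairwise_isCoprime (fun a ha b hb hab ↦ ?_)
      (fun q hq => (hSprime q hq).prime.squarefree)
    exact Nat.coprime_iff_isRelPrime.mp
      ((Nat.coprime_primes (hSprime a ha) (hSprime b hb)).mpr hab)
  have h1 : aeval z (P n) = w z m := aeval_P_squarefree z m n hsq (by rw [hpf, hScard])
  have h2 : m ≤ n := by
    have : 2 ^ m ≤ n := by
      rw [← hScard, ← Finset.prod_const]
      exact Finset.prod_le_prod' fun q hq => (hSprime q hq).two_le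
    exact (Nat.lt_two_pow_self).le.trans this
  have h3 := hn₀ n (hmn.trans h2)
  rw [h1] at h3
  refine h3.trans (mul_le_mul_of_nonneg_left ?_ hA)
  have h4 : (n : ℝ) ≤ (p : ℝ) ^ m := by
    have : n ≤ p ^ m := by
      rw [← hScard, ← Finset.prod_const]
      exact Finset.prod_le_prod' fun q hq => (Nat.lt_of_mem_primesBelow hq).le
    exact_mod_cast this
  have hp0 : (0 : ℝ) < p := by exact_mod_cast hpp.pos
  have h5 : (n : ℝ) ^ (1 - ε) ≤ ((p : ℝ) ^ m) ^ (1 - ε) :=
    Real.rpow_le_rpow (by positivity) h4 (by linarith)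
  have h6 : ((p : ℝ) ^ m) ^ (1 - ε) = ((p : ℝ) ^ (1 - ε)) ^ m := by
    rw [← Real.rpow_natCast, ← Real.rpow_natCast, ← Real.rpow_mul hp0.le, ← Real.rpow_mul hp0.le,
      mul_comm]
  rw [h6] at h5
  refine h5.trans (pow_le_pow_left₀ (by positivity) ?_ m)
  have h7 : (p : ℝ) ^ (1 - ε) = ((p : ℝ) ^ (1 - ε / 2)) ^ ((1 - ε) / (1 - ε / 2)) := by
    rw [← Real.rpow_mul hp0.le]
    congr 1
    rw [mul_div_cancel₀ _ (by linarith : (1 - ε / 2) ≠ 0)]
  rw [h7]
  exact Real.rpow_le_rpow (by positivity) hm (div_nonneg (by linarith) (by linarith))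

theorem P_not_small {z : ℂ} (hz : z ≠ 0) (hz1 : 1 + z ≠ 0) {A ε : ℝ} (hA : 0 ≤ A) (hε : 0 < ε)
    (hε1 : ε < 1) (h : ∀ᶠ n : ℕ in atTop, ‖aeval z (P n)‖ ≤ A * (n : ℝ) ^ (1 - ε)) : False := by
  refine not_summable_all z hz hz1 fun t => ?_
  have hb := w_bound hA hε hε1 h
  set κ := (1 - ε) / (1 - ε / 2) with hκ
  have hκ1 : κ < 1 := by rw [hκ, div_lt_one (by linarith)]; linarith
  have hκ0 : 0 ≤ κ := div_nonneg (by linarith) (by linarith)
  -- eventually `(m+1)^κ * ‖t‖ * e / m ≤ 1/2`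
  have h1 : ∀ᶠ m : ℕ in atTop, ((m : ℝ) + 1) ^ κ * ‖t‖ * Real.exp 1 ≤ (1 / 2) * m := by
    have h2 : Tendsto (fun x : ℝ => x ^ (1 - κ)) atTop atTop := tendsto_rpow_atTop (by linarith)
    have h3 : Tendsto (fun m : ℕ => ((m : ℝ) + 1)) atTop atTop :=
      tendsto_atTop_add_const_right _ _ tendsto_natCast_atTop_atTop
    have h4 := (h2.comp h3).eventually_ge_atTop (4 * ‖t‖ * Real.exp 1)
    filter_upwards [h4, eventually_ge_atTop 1] with m hm hm1
    have hm1' : (1 : ℝ) ≤ m := by exact_mod_cast hm1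
    simp only [Function.comp_apply] at hm
    have h5 : ((m : ℝ) + 1) ^ κ * ((m : ℝ) + 1) ^ (1 - κ) = (m : ℝ) + 1 := by
      rw [← Real.rpow_add (by linarith)]; simp
    have h6 : 0 ≤ ((m : ℝ) + 1) ^ κ := by positivity
    have h7 := mul_le_mul_of_nonneg_left hm h6
    rw [h5] at h7
    nlinarith
  refine Summable.of_norm_bounded_eventually_nat (g := fun m => A * (1 / 2 : ℝ) ^ m)
    ((summable_geometric_of_lt_one (by norm_num) (by norm_num)).mul_left A) ?_
  filter_upwards [hb, h1, eventually_ge_atTop 1] with m hm1 hm2 hm3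
  have hm0 : (0 : ℝ) < m := by exact_mod_cast hm3
  rw [norm_norm, norm_div, norm_mul, norm_pow]
  have hfac : ‖((m.factorial : ℕ) : ℂ)‖ = (m.factorial : ℝ) := by simp
  rw [hfac]
  have hfpos : (0 : ℝ) < (m.factorial : ℝ) := by exact_mod_cast m.factorial_pos
  have h2 : (m : ℝ) ^ m ≤ Real.exp 1 ^ m * m.factorial := by
    have := Real.pow_div_factorial_le_exp (m : ℝ) hm0.le m
    rw [div_le_iff₀ hfpos] at this
    rwa [← Real.exp_nat_mul, mul_one]
  rw [div_le_iff₀ hfpos]
  have h3 : (((m : ℝ) + 1) ^ κ * ‖t‖ * Real.exp 1) ^ m ≤ ((1 / 2) * m) ^ m :=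
    pow_le_pow_left₀ (by positivity) hm2 m
  have h4 : (((m : ℝ) + 1) ^ κ) ^ m * ‖t‖ ^ m * Real.exp 1 ^ m ≤
      (1 / 2) ^ m * (Real.exp 1 ^ m * m.factorial) := by
    rw [mul_pow, mul_pow, mul_pow (1 / 2 : ℝ)] at h3
    exact h3.trans (mul_le_mul_of_nonneg_left h2 (by positivity))
  have h5 : (((m : ℝ) + 1) ^ κ) ^ m * ‖t‖ ^ m ≤ (1 / 2) ^ m * m.factorial := by
    have he : 0 < Real.exp 1 ^ m := by positivity
    refine le_of_mul_le_mul_right ?_ he
    calc _ ≤ _ := h4
      _ = _ := by ring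
  calc ‖w z m‖ * ‖t‖ ^ m ≤ A * (((m : ℝ) + 1) ^ κ) ^ m * ‖t‖ ^ m :=
        mul_le_mul_of_nonneg_right hm1 (by positivity)
    _ = A * ((((m : ℝ) + 1) ^ κ) ^ m * ‖t‖ ^ m) := by ring
    _ ≤ A * ((1 / 2) ^ m * m.factorial) := mul_le_mul_of_nonneg_left h5 hA
    _ = _ := by ring

theorem summable_aux {d : ℕ → ℝ} {A K x : ℝ} (hK : 0 < K) (hd : ∀ k, |d k| ≤ A * K ^ k)
    (hx : |x| < 1 / (2 * K)) : Summable fun k => d k * x ^ k := by
  have hKx : K * |x| < 1 / 2 := by
    rw [lt_div_iff₀ (by positivity)] at hx; linarith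
  refine Summable.of_norm_bounded (g := fun k => A * (K * |x|) ^ k)
    ((summable_geometric_of_lt_one (by positivity) (by linarith)).mul_left A) fun k => ?_
  rw [Real.norm_eq_abs, abs_mul, abs_pow, mul_pow, ← mul_assoc]
  exact mul_le_mul_of_nonneg_right (hd k) (by positivity)

/-- A coefficientwise compactness argument: convergence on a real interval implies convergence of
all the coefficients. -/
theorem coeff_tendsto (d : ℕ → ℕ → ℝ) {A K : ℝ} (hA : 0 ≤ A) (hK : 0 < K)
    (hd : ∀ᶠ n in atTop, ∀ k, |d n k| ≤ A * K ^ k)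
    (hconv : ∀ x : ℝ, 0 < x → x < 1 / (2 * K) →
      ∃ L, Tendsto (fun n => ∑' k, d n k * x ^ k) atTop (𝓝 L)) (k : ℕ) :
    ∃ b, Tendsto (fun n => d n k) atTop (𝓝 b) := by
  induction k using Nat.strong_induction_on with
  | _ k ih =>
    apply cauchySeq_tendsto_of_complete
    rw [Metric.cauchySeq_iff']
    intro ε hε
    -- choose `x`
    obtain ⟨x, hx0, hx1⟩ : ∃ x : ℝ, 0 < x ∧ x < min (1 / (2 * K)) (ε / (3 * (2 * A * K ^ (k + 1) + 1))) :=
      exists_between (by positivity)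
    have hxK : x < 1 / (2 * K) := hx1.trans_le (min_le_left _ _)
    have hxε : x < ε / (3 * (2 * A * K ^ (k + 1) + 1)) := hx1.trans_le (min_le_right _ _)
    have hKx : K * x < 1 / 2 := by
      rw [lt_div_iff₀ (by positivity)] at hxK; linarith
    obtain ⟨L, hL⟩ := hconv x hx0 hxK
    -- the approximating sequence
    let v : ℕ → ℝ := fun n => (∑' j, d n j * x ^ j - ∑ j ∈ Finset.range k, d n j * x ^ j) / x ^ k
    have hv : ∃ M, Tendsto v atTop (𝓝 M) := by
      have h1 : ∀ j ∈ Finset.range k, ∃ b, Tendsto (fun n => d n j * x ^ j) atTop (𝓝 b) := by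
        intro j hj
        obtain ⟨b, hb⟩ := ih j (Finset.mem_range.mp hj)
        exact ⟨b * x ^ j, hb.mul_const _⟩
      choose! b hb using h1
      refine ⟨(L - ∑ j ∈ Finset.range k, b j) / x ^ k, ?_⟩
      exact (hL.sub (tendsto_finsetSum _ hb)).div_const _
    have happrox : ∀ᶠ n in atTop, |d n k - v n| ≤ 2 * A * K ^ (k + 1) * x := by
      filter_upwards [hd] with n hn
      have hs := summable_aux (x := x) hK hn (by rwa [abs_of_pos hx0])
      have h1 := hs.sum_add_tsum_nat_add (k + 1)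
      rw [Finset.sum_range_succ] at h1
      have h2 : d n k - v n = -(∑' j, d n (j + (k + 1)) * x ^ (j + (k + 1))) / x ^ k := by
        simp only [v]
        rw [← h1]
        field_simp
        ring
      rw [h2, abs_div, abs_neg, abs_of_pos (by positivity : 0 < x ^ k), div_le_iff₀ (by positivity)]
      have h3 : ∀ j, ‖d n (j + (k + 1)) * x ^ (j + (k + 1))‖ ≤
          (A * (K * x) ^ (k + 1)) * (K * x) ^ j := by
        intro j
        rw [Real.norm_eq_abs, abs_mul, abs_of_pos (by positivity : 0 < x ^ (j + (k + 1)))]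
        calc |d n (j + (k + 1))| * x ^ (j + (k + 1))
            ≤ A * K ^ (j + (k + 1)) * x ^ (j + (k + 1)) :=
              mul_le_mul_of_nonneg_right (hn _) (by positivity)
          _ = _ := by ring
      have hgeo := (hasSum_geometric_of_lt_one (by positivity : 0 ≤ K * x)
        (by linarith : K * x < 1)).mul_left (A * (K * x) ^ (k + 1))
      have h4 := tsum_of_norm_bounded hgeo h3
      rw [Real.norm_eq_abs] at h4
      refine h4.trans ?_
      have h5 : (1 - K * x)⁻¹ ≤ 2 := by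
        rw [inv_le_comm₀ (by linarith) (by norm_num)]; linarith
      calc A * (K * x) ^ (k + 1) * (1 - K * x)⁻¹ ≤ A * (K * x) ^ (k + 1) * 2 :=
            mul_le_mul_of_nonneg_left h5 (by positivity)
        _ = _ := by ring
    obtain ⟨M, hM⟩ := hv
    have hcau := Metric.tendsto_atTop.mp hM (ε / 6) (by positivity)
    obtain ⟨N₁, hN₁⟩ := hcau
    obtain ⟨N₂, hN₂⟩ := eventually_atTop.mp happrox
    refine ⟨max N₁ N₂, fun n hn => ?_⟩
    have hsmall : 2 * A * K ^ (k + 1) * x ≤ ε / 3 := by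
      have h6 : 0 ≤ 2 * A * K ^ (k + 1) := by positivity
      rw [lt_div_iff₀ (by positivity)] at hxε
      nlinarith
    have e1 := hN₂ n (le_trans (le_max_right _ _) hn)
    have e2 := hN₂ (max N₁ N₂) (le_max_right _ _)
    have e3 := hN₁ n (le_trans (le_max_left _ _) hn)
    have e4 := hN₁ (max N₁ N₂) (le_max_left _ _)
    rw [Real.dist_eq] at e3 e4 ⊢
    have a1 := abs_le.mp (e1.trans hsmall)
    have a2 := abs_le.mp (e2.trans hsmall)
    have a3 := abs_lt.mp e3
    have a4 := abs_lt.mp e4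
    rw [abs_lt]
    constructor <;> linarith [a1.1, a1.2, a2.1, a2.2, a3.1, a3.2, a4.1, a4.2]

/-- Limit function. -/
theorem limit_function (d : ℕ → ℕ → ℝ) {A K : ℝ} (hA : 0 ≤ A) (hK : 0 < K)
    (hd : ∀ᶠ n in atTop, ∀ k, |d n k| ≤ A * K ^ k) (hd0 : ∀ n, d n 0 = 0)
    (hconv : ∀ x : ℝ, 0 < x → x < 1 / (2 * K) →
      ∃ L, Tendsto (fun n => ∑' k, d n k * x ^ k) atTop (𝓝 L)) :
    ∃ h : ℂ → ℂ, DifferentiableOn ℂ h (Metric.ball 0 (1 / (2 * K))) ∧ h 0 = 0 ∧
      ∀ z ∈ Metric.ball (0 : ℂ) (1 / (2 * K)),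
        Tendsto (fun n => ∑' k, d n k * (z ^ k).re) atTop (𝓝 (h z).re) := by
  choose b hb using coeff_tendsto d hA hK hd hconv
  have hbb : ∀ k, |b k| ≤ A * K ^ k := by
    intro k
    refine le_of_tendsto (hb k).abs ?_
    filter_upwards [hd] with n hn using hn k
  have hsum : ∀ z ∈ Metric.ball (0 : ℂ) (1 / (2 * K)), K * ‖z‖ < 1 / 2 := by
    intro z hz
    rw [mem_ball_zero_iff, lt_div_iff₀ (by positivity)] at hz
    linarith
  have hnorm : ∀ k, ∀ z ∈ Metric.ball (0 : ℂ) (1 / (2 * K)),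
      ‖((b k : ℝ) : ℂ) * z ^ k‖ ≤ A * (1 / 2) ^ k := by
    intro k z hz
    rw [norm_mul, norm_pow, Complex.norm_real, Real.norm_eq_abs]
    calc |b k| * ‖z‖ ^ k ≤ A * K ^ k * ‖z‖ ^ k :=
          mul_le_mul_of_nonneg_right (hbb k) (by positivity)
      _ = A * (K * ‖z‖) ^ k := by rw [mul_pow]; ring
      _ ≤ A * (1 / 2) ^ k := by
          refine mul_le_mul_of_nonneg_left ?_ hA
          exact pow_le_pow_left₀ (by positivity) (hsum z hz).le k
  have hS : Summable fun k : ℕ => A * (1 / 2 : ℝ) ^ k :=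
    (summable_geometric_of_lt_one (by norm_num) (by norm_num)).mul_left A
  refine ⟨fun z => ∑' k, ((b k : ℝ) : ℂ) * z ^ k, ?_, ?_, ?_⟩
  · refine Complex.differentiableOn_tsum_of_summable_norm hS (fun k => ?_) Metric.isOpen_ball hnorm
    exact (Differentiable.differentiableOn (by fun_prop))
  · have hb0 : b 0 = 0 := by
      have := hb 0
      simp only [hd0] at this
      exact (tendsto_nhds_unique this tendsto_const_nhds)
    have : ∀ k, ((b k : ℝ) : ℂ) * (0 : ℂ) ^ k = 0 := by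
      intro k
      rcases k with _ | k
      · simp [hb0]
      · simp
    simp only [this, tsum_zero]
  · intro z hz
    have h1 : (∑' k, ((b k : ℝ) : ℂ) * z ^ k).re = ∑' k, b k * (z ^ k).re := by
      rw [Complex.re_tsum (Summable.of_norm_bounded hS fun k => hnorm k z hz)]
      refine tsum_congr fun k => ?_
      rw [Complex.re_ofReal_mul]
    simp only
    rw [h1]
    refine tendsto_tsum_of_dominated_convergence hS (fun k => (hb k).mul_const _) ?_
    filter_upwards [hd] with n hn k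
    rw [Real.norm_eq_abs, abs_mul]
    calc |d n k| * |(z ^ k).re| ≤ A * K ^ k * ‖z‖ ^ k := by
          refine mul_le_mul (hn k) ?_ (abs_nonneg _) (by positivity)
          rw [← norm_pow]
          exact Complex.abs_re_le_norm _
      _ = A * (K * ‖z‖) ^ k := by rw [mul_pow]; ring
      _ ≤ A * (1 / 2) ^ k := by
          refine mul_le_mul_of_nonneg_left ?_ hA
          exact pow_le_pow_left₀ (by positivity) (hsum z hz).le k

/-- minimum principle -/
theorem min_principle {h : ℂ → ℂ} {r : ℝ} (hr : 0 < r)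
    (hh : DifferentiableOn ℂ h (Metric.ball 0 r)) (h0 : h 0 = 0)
    (hpos : ∀ z ∈ Metric.ball (0 : ℂ) r, z ≠ 0 → 0 ≤ (h z).re) :
    ∀ z ∈ Metric.ball (0 : ℂ) r, h z = 0 := by
  have hball : IsPreconnected (Metric.ball (0 : ℂ) r) := (convex_ball 0 r).isPreconnected
  have han : AnalyticOnNhd ℂ h (Metric.ball 0 r) := hh.analyticOnNhd Metric.isOpen_ball
  have h0mem : (0 : ℂ) ∈ Metric.ball (0 : ℂ) r := Metric.mem_ball_self hr
  rcases han.is_constant_or_isOpen hball with ⟨c, hc⟩ | hopen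
  · intro z hz
    rw [hc z hz, ← hc 0 h0mem, h0]
  · exfalso
    have hO := hopen (Metric.ball 0 r) subset_rfl Metric.isOpen_ball
    have hmem : (0 : ℂ) ∈ h '' Metric.ball 0 r := ⟨0, h0mem, h0⟩
    obtain ⟨ε, hε, hsub⟩ := Metric.isOpen_iff.mp hO 0 hmem
    have : (((-(ε / 2) : ℝ)) : ℂ) ∈ Metric.ball (0 : ℂ) ε := by
      rw [mem_ball_zero_iff, Complex.norm_real, Real.norm_eq_abs, abs_neg, abs_of_pos (by linarith)]
      linarith
    obtain ⟨z, hz, hzv⟩ := hsub this
    have hz0 : z ≠ 0 := by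
      rintro rfl
      rw [h0] at hzv
      have := congrArg Complex.re hzv
      simp at this
      linarith
    have := hpos z hz hz0
    rw [hzv, Complex.ofReal_re] at this
    linarith

theorem tendsto_log_nat : Tendsto (fun n : ℕ => Real.log n) atTop atTop :=
  Real.tendsto_log_atTop.comp tendsto_natCast_atTop_atTop

theorem log_ratio_tendsto {u v : ℕ → ℝ} {c₁ c₂ l : ℝ} (hc₁ : 0 < c₁) (hc₂ : 0 < c₂)
    (hu : ∀ᶠ n in atTop, 0 < u n) (h1 : ∀ᶠ n in atTop, c₁ * u n ≤ v n)
    (h2 : ∀ᶠ n in atTop, v n ≤ c₂ * u n)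
    (hlim : Tendsto (fun n : ℕ => Real.log (u n) / Real.log n) atTop (𝓝 l)) :
    Tendsto (fun n : ℕ => Real.log (v n) / Real.log n) atTop (𝓝 l) := by
  have hc : ∀ c : ℝ, Tendsto (fun n : ℕ => Real.log c / Real.log n + Real.log (u n) / Real.log n)
      atTop (𝓝 l) := by
    intro c
    have := (tendsto_const_nhds (x := Real.log c)).div_atTop tendsto_log_nat
    simpa using this.add hlim
  refine tendsto_of_tendsto_of_tendsto_of_le_of_le' (hc c₁) (hc c₂) ?_ ?_
  · filter_upwards [hu, h1, eventually_ge_atTop 2] with n hun hn hn2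
    have hlog : 0 < Real.log n := Real.log_pos (by exact_mod_cast (by omega : 1 < n))
    rw [← add_div, ← Real.log_mul hc₁.ne' hun.ne']
    exact div_le_div_of_nonneg_right (Real.log_le_log (by positivity) hn) hlog.le
  · filter_upwards [hu, h1, h2, eventually_ge_atTop 2] with n hun hn1 hn hn2
    have hlog : 0 < Real.log n := Real.log_pos (by exact_mod_cast (by omega : 1 < n))
    rw [← add_div, ← Real.log_mul hc₂.ne' hun.ne']
    have : 0 < c₁ * u n := by positivity
    exact div_le_div_of_nonneg_right (Real.log_le_log (by linarith) hn) hlog.le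

theorem tendsto_log_sqrt :
    Tendsto (fun n : ℕ => Real.log (√(n : ℝ)) / Real.log n) atTop (𝓝 (1 / 2)) := by
  refine tendsto_const_nhds.congr' ?_
  filter_upwards [eventually_ge_atTop 2] with n hn
  have hlog : 0 < Real.log n := Real.log_pos (by exact_mod_cast (by omega : 1 < n))
  rw [Real.log_sqrt (Nat.cast_nonneg n)]
  field_simp

theorem hasSum_log_prod {K : ℝ} {z : ℂ} (hz : K * ‖z‖ < 1) (T : Multiset ℂ)
    (hT : ∀ μ ∈ T, ‖μ - 1‖ ≤ K) :
    HasSum (fun k : ℕ => -((T.map (fun μ => (μ - 1) ^ k)).sum * z ^ k).re / k)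
      (Real.log ‖(T.map (fun μ => 1 - (μ - 1) * z)).prod‖) ∧
    (T.map (fun μ => 1 - (μ - 1) * z)).prod ≠ 0 := by
  induction T using Multiset.induction_on with
  | empty => simp [hasSum_zero]
  | cons a T ih =>
    obtain ⟨ih1, ih2⟩ := ih (fun μ hμ => hT μ (Multiset.mem_cons_of_mem hμ))
    have ha : ‖(a - 1) * z‖ < 1 := by
      rw [norm_mul]
      exact lt_of_le_of_lt (mul_le_mul_of_nonneg_right (hT a (Multiset.mem_cons_self a T))
        (norm_nonneg z)) hz
    have hne : 1 - (a - 1) * z ≠ 0 := by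
      intro h
      have : (a - 1) * z = 1 := by linear_combination -h
      rw [this, norm_one] at ha
      exact lt_irrefl _ ha
    refine ⟨?_, ?_⟩
    · rw [Multiset.map_cons, Multiset.prod_cons, norm_mul,
        Real.log_mul (norm_ne_zero_iff.mpr hne) (norm_ne_zero_iff.mpr ih2)]
      have h1 := Complex.hasSum_re (Complex.hasSum_taylorSeries_neg_log ha)
      rw [Complex.neg_re, Complex.log_re] at h1
      have h2 := h1.neg.add ih1
      rw [neg_neg] at h2
      have h3 : (fun k : ℕ => -((Multiset.map (fun μ => (μ - 1) ^ k) (a ::ₘ T)).sum * z ^ k).re / k)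
          = fun k : ℕ => -((((a - 1) * z) ^ k / (k : ℂ)).re) +
            -((T.map (fun μ => (μ - 1) ^ k)).sum * z ^ k).re / k := by
        funext k
        rw [Multiset.map_cons, Multiset.sum_cons, add_mul, ← mul_pow, Complex.add_re,
          ← Complex.ofReal_natCast, Complex.div_ofReal_re]
        ring
      rw [h3]
      exact h2
    · rw [Multiset.map_cons, Multiset.prod_cons]
      exact mul_ne_zero hne ih2

theorem Q_conj (n : ℕ) (z : ℂ) : Q n ((starRingEnd ℂ) z) = (starRingEnd ℂ) (Q n z) := by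
  unfold Q
  rw [map_sub, map_add, map_mul, map_one]
  congr 2
  rw [aeval_eq_eval_map, aeval_eq_eval_map, eval_map, eval_map, hom_eval₂]
  congr 1
  ext
  simp

/-- real parts of the normalised power sums -/
noncomputable def dd (T : ℕ → Multiset ℂ) (n k : ℕ) : ℝ :=
  -(((T n).map (fun μ => (μ - 1) ^ k)).sum).re / (k * Real.log n)

/-- The hypotheses satisfied by the spectra in the argument by contradiction. -/
def Hyp (K : ℝ) (a b : ℕ → ℝ) (T : ℕ → Multiset ℂ) (n : ℕ) : Prop :=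
  |a n - √(n : ℝ)| ≤ 5 * Real.log n ∧ |b n + √(n : ℝ)| ≤ 5 * Real.log n ∧
  (∀ μ ∈ T n, ‖μ - 1‖ ≤ K) ∧
  (∀ z, Q n z = (1 - a n * z) * (1 - b n * z) *
    ((T n).map (fun μ => 1 - (μ - 1) * z)).prod) ∧ (T n).card ≤ Nat.log 2 n ∧ Large n

theorem Hyp.ge_a {K : ℝ} {a b : ℕ → ℝ} {T : ℕ → Multiset ℂ} {n : ℕ} (h : Hyp K a b T n) :
    √(n : ℝ) / 2 ≤ a n ∧ a n ≤ 2 * √(n : ℝ) ∧ √(n : ℝ) / 2 ≤ - b n ∧ - b n ≤ 2 * √(n : ℝ) := by
  obtain ⟨h1, h2, -, -, -, h3⟩ := h
  have hL := h3.log_ge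
  have hL2 := h3.2
  have a1 := abs_le.mp h1
  have a2 := abs_le.mp h2
  refine ⟨?_, ?_, ?_, ?_⟩ <;> linarith [a1.1, a1.2, a2.1, a2.2]

theorem norm_powersum_le {K : ℝ} (T : Multiset ℂ) (hT : ∀ μ ∈ T, ‖μ - 1‖ ≤ K) (k : ℕ) :
    ‖(T.map (fun μ => (μ - 1) ^ k)).sum‖ ≤ T.card * K ^ k := by
  induction T using Multiset.induction_on with
  | empty => simp
  | cons a T ih =>
    rw [Multiset.map_cons, Multiset.sum_cons, Multiset.card_cons]
    refine (norm_add_le _ _).trans ?_
    have h1 := ih (fun μ hμ => hT μ (Multiset.mem_cons_of_mem hμ))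
    have h2 : ‖(a - 1) ^ k‖ ≤ K ^ k := by
      rw [norm_pow]
      exact pow_le_pow_left₀ (norm_nonneg _) (hT a (Multiset.mem_cons_self a T)) k
    push_cast
    linarith

theorem dd_bound {K : ℝ} {a b : ℕ → ℝ} {T : ℕ → Multiset ℂ} {n : ℕ} (hK : 0 < K)
    (h : Hyp K a b T n) (k : ℕ) : |dd T n k| ≤ 2 * K ^ k := by
  rcases Nat.eq_zero_or_pos k with rfl | hk
  · simp [dd]
  obtain ⟨-, -, h1, -, h2, h3⟩ := h
  have hn3 := h3.1
  have hlog := h3.log_ge
  have hk1 : (1 : ℝ) ≤ k := by exact_mod_cast hk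
  have h4 := (Complex.abs_re_le_norm _).trans (norm_powersum_le (T n) h1 k)
  unfold dd
  rw [abs_div, abs_neg, abs_of_pos (by positivity : 0 < (k : ℝ) * Real.log n),
    div_le_iff₀ (by positivity)]
  refine h4.trans ?_
  have h5 : ((T n).card : ℝ) ≤ 2 * Real.log n := by
    have h6 : ((T n).card : ℝ) ≤ Nat.log 2 n := by exact_mod_cast h2
    have h7 : ((Nat.log 2 n : ℕ) : ℝ) * Real.log 2 ≤ Real.log n := by
      rw [← Real.log_pow]
      refine Real.log_le_log (by positivity) ?_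
      exact_mod_cast Nat.pow_log_le_self 2 (by omega)
    have h8 := Real.log_two_gt_d9
    have h9 : (0 : ℝ) ≤ (Nat.log 2 n : ℕ) := Nat.cast_nonneg _
    nlinarith
  have hKk : 0 < K ^ k := by positivity
  calc ((T n).card : ℝ) * K ^ k ≤ 2 * Real.log n * K ^ k := mul_le_mul_of_nonneg_right h5 hKk.le
    _ ≤ 2 * K ^ k * (k * Real.log n) := by
        have : 2 * Real.log n * K ^ k * 1 ≤ 2 * Real.log n * K ^ k * k :=
          mul_le_mul_of_nonneg_left hk1 (by positivity)
        linarith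

theorem log_norm_prod {K : ℝ} {a b : ℕ → ℝ} {T : ℕ → Multiset ℂ} {n : ℕ}
    (h : Hyp K a b T n) {z : ℂ} (hz : K * ‖z‖ < 1)
    (ha : (1 - (a n : ℂ) * z) ≠ 0) (hb : (1 - (b n : ℂ) * z) ≠ 0) :
    Real.log ‖((T n).map (fun μ => 1 - (μ - 1) * z)).prod‖ / Real.log n =
      ∑' k, dd T n k * (z ^ k).re := by
  have hT := h.2.2.1
  have hlog := h.2.2.2.2.2.log_ge
  set zc := (starRingEnd ℂ) z with hzc
  have hzcn : ‖zc‖ = ‖z‖ := by rw [hzc]; exact Complex.norm_conj z
  have h1 := (hasSum_log_prod hz (T n) hT).1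
  have h2 := (hasSum_log_prod (z := zc) (by rwa [hzcn]) (T n) hT).1
  have h3 : ‖((T n).map (fun μ => 1 - (μ - 1) * zc)).prod‖ =
      ‖((T n).map (fun μ => 1 - (μ - 1) * z)).prod‖ := by
    have e1 := h.2.2.2.1 z
    have e2 := h.2.2.2.1 zc
    rw [hzc, Q_conj, e1, ← hzc] at e2
    have e3 := congrArg norm e2
    rw [Complex.norm_conj, norm_mul, norm_mul, norm_mul, norm_mul] at e3
    have e4 : ‖1 - (a n : ℂ) * zc‖ = ‖1 - (a n : ℂ) * z‖ := by
      rw [← Complex.norm_conj (1 - (a n : ℂ) * z)]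
      congr 1
      simp [hzc]
    have e5 : ‖1 - (b n : ℂ) * zc‖ = ‖1 - (b n : ℂ) * z‖ := by
      rw [← Complex.norm_conj (1 - (b n : ℂ) * z)]
      congr 1
      simp [hzc]
    rw [e4, e5] at e3
    exact (mul_left_cancel₀ (mul_ne_zero (norm_ne_zero_iff.mpr ha) (norm_ne_zero_iff.mpr hb)) e3).symm
  rw [h3] at h2
  have h4 := (h1.add h2).div_const (2 * Real.log n)
  have h5 : (Real.log ‖((T n).map (fun μ => 1 - (μ - 1) * z)).prod‖ +
      Real.log ‖((T n).map (fun μ => 1 - (μ - 1) * z)).prod‖) / (2 * Real.log n) =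
      Real.log ‖((T n).map (fun μ => 1 - (μ - 1) * z)).prod‖ / Real.log n := by
    rw [← two_mul, mul_div_mul_left _ _ (two_ne_zero)]
  rw [h5] at h4
  rw [← h4.tsum_eq]
  refine tsum_congr fun k => ?_
  have h6 : zc ^ k = (starRingEnd ℂ) (z ^ k) := by rw [hzc, map_pow]
  rw [h6, Complex.mul_re, Complex.mul_re, Complex.conj_re, Complex.conj_im]
  unfold dd
  rcases Nat.eq_zero_or_pos k with rfl | hk
  · simp
  have hk1 : (0 : ℝ) < k := by exact_mod_cast hk
  field_simp
  ring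

theorem f_tendsto_atTop {x : ℝ} (hx : 0 < x) : Tendsto (fun n : ℕ => f x n) atTop atTop := by
  have h1 : Tendsto (fun n : ℕ => 1 + x * ((n : ℝ) - 1)) atTop atTop := by
    refine tendsto_atTop_add_const_left _ _ ?_
    refine Tendsto.const_mul_atTop hx ?_
    exact tendsto_atTop_add_const_right _ _ tendsto_natCast_atTop_atTop
  refine tendsto_atTop_mono' _ ?_ h1
  filter_upwards [eventually_ge_atTop 1] with n hn using f_lower_lin hx.le hn

theorem sqrt_tendsto_atTop : Tendsto (fun n : ℕ => √(n : ℝ)) atTop atTop :=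
  Real.tendsto_sqrt_atTop.comp tendsto_natCast_atTop_atTop

/-- convergence on the positive axis -/
theorem conv_pos {K : ℝ} {a b : ℕ → ℝ} {T : ℕ → Multiset ℂ} (hK : 1 ≤ K)
    (h : ∀ᶠ n in atTop, Hyp K a b T n) {x : ℝ} (hx : 0 < x) (hx1 : x < 1 / (2 * K)) :
    ∃ L, 0 < L ∧ Tendsto (fun n => ∑' k, dd T n k * x ^ k) atTop (𝓝 L) := by
  obtain ⟨l, hl1, hl⟩ := exists_limit hx
  have hxle : x ≤ 1 := by
    refine hx1.le.trans ?_
    rw [div_le_one (by linarith)]; linarith
  refine ⟨l - 1, by linarith, ?_⟩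
  -- `|Q n x|`
  have hQ : Tendsto (fun n : ℕ => Real.log ‖Q n x‖ / Real.log n) atTop (𝓝 l) := by
    refine log_ratio_tendsto (u := fun n => f x n) (c₁ := x / 2) (c₂ := 3) (by linarith)
      (by norm_num) ?_ ?_ ?_ hl
    · filter_upwards [(f_tendsto_atTop hx).eventually_gt_atTop 0] with n hn using hn
    · filter_upwards [(f_tendsto_atTop hx).eventually_ge_atTop (4 / x)] with n hn
      rw [← ofReal_q, Complex.norm_real, Real.norm_eq_abs]
      rw [div_le_iff₀ hx] at hn
      have : x / 2 * f x n ≤ - q n x := by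
        unfold q
        nlinarith
      exact this.trans (neg_le_abs _)
    · filter_upwards [eventually_ge_atTop 1] with n hn
      rw [← ofReal_q, Complex.norm_real, Real.norm_eq_abs]
      have h1 := one_le_f hx.le hn
      unfold q
      rw [abs_le]
      constructor <;> nlinarith
  have hA : Tendsto (fun n : ℕ => Real.log ‖1 - (a n : ℂ) * x‖ / Real.log n) atTop (𝓝 (1 / 2)) := by
    refine log_ratio_tendsto (u := fun n => √(n : ℝ)) (c₁ := x / 4) (c₂ := 3) (by linarith)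
      (by norm_num) ?_ ?_ ?_ tendsto_log_sqrt
    · filter_upwards [sqrt_tendsto_atTop.eventually_gt_atTop 0] with n hn using hn
    · filter_upwards [h, sqrt_tendsto_atTop.eventually_ge_atTop (4 / x)] with n hn hn2
      have h1 := hn.ge_a
      have h2 : (1 - (a n : ℂ) * x) = ((1 - a n * x : ℝ) : ℂ) := by push_cast; ring
      rw [h2, Complex.norm_real, Real.norm_eq_abs]
      rw [div_le_iff₀ hx] at hn2
      have h3 : x / 4 * √(n : ℝ) ≤ -(1 - a n * x) := by nlinarith [h1.1]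
      exact h3.trans (neg_le_abs _)
    · filter_upwards [h, sqrt_tendsto_atTop.eventually_ge_atTop 1] with n hn hn2
      have h1 := hn.ge_a
      have h2 : (1 - (a n : ℂ) * x) = ((1 - a n * x : ℝ) : ℂ) := by push_cast; ring
      rw [h2, Complex.norm_real, Real.norm_eq_abs, abs_le]
      constructor <;> nlinarith [h1.1, h1.2.1]
  have hB : Tendsto (fun n : ℕ => Real.log ‖1 - (b n : ℂ) * x‖ / Real.log n) atTop (𝓝 (1 / 2)) := by
    refine log_ratio_tendsto (u := fun n => √(n : ℝ)) (c₁ := x / 4) (c₂ := 3) (by linarith)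
      (by norm_num) ?_ ?_ ?_ tendsto_log_sqrt
    · filter_upwards [sqrt_tendsto_atTop.eventually_gt_atTop 0] with n hn using hn
    · filter_upwards [h] with n hn
      have h1 := hn.ge_a
      have h2 : (1 - (b n : ℂ) * x) = ((1 - b n * x : ℝ) : ℂ) := by push_cast; ring
      rw [h2, Complex.norm_real, Real.norm_eq_abs]
      have h3 : x / 4 * √(n : ℝ) ≤ (1 - b n * x) := by
        nlinarith [h1.2.2.1, Real.sqrt_nonneg (n : ℝ)]
      exact h3.trans (le_abs_self _)
    · filter_upwards [h, sqrt_tendsto_atTop.eventually_ge_atTop 1] with n hn hn2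
      have h1 := hn.ge_a
      have h2 : (1 - (b n : ℂ) * x) = ((1 - b n * x : ℝ) : ℂ) := by push_cast; ring
      rw [h2, Complex.norm_real, Real.norm_eq_abs, abs_le]
      constructor <;> nlinarith [h1.2.2.1, h1.2.2.2]
  have hlim := (hQ.sub hA).sub hB
  rw [show l - 1 / 2 - 1 / 2 = l - 1 by ring] at hlim
  refine hlim.congr' ?_
  filter_upwards [h, (f_tendsto_atTop hx).eventually_ge_atTop (4 / x),
    sqrt_tendsto_atTop.eventually_ge_atTop (4 / x)] with n hn hn1 hn2
  have h1 := hn.ge_a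
  rw [div_le_iff₀ hx] at hn1 hn2
  have hKx : K * ‖(x : ℂ)‖ < 1 := by
    rw [Complex.norm_real, Real.norm_eq_abs, abs_of_pos hx]
    rw [lt_div_iff₀ (by linarith)] at hx1
    nlinarith
  have ha : (1 - (a n : ℂ) * (x : ℂ)) ≠ 0 := by
    have h2 : (1 - (a n : ℂ) * x) = ((1 - a n * x : ℝ) : ℂ) := by push_cast; ring
    rw [h2]
    have : (1 - a n * x : ℝ) < 0 := by nlinarith [h1.1]
    exact_mod_cast this.ne
  have hb : (1 - (b n : ℂ) * (x : ℂ)) ≠ 0 := by
    have h2 : (1 - (b n : ℂ) * x) = ((1 - b n * x : ℝ) : ℂ) := by push_cast; ring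
    rw [h2]
    have : 0 < (1 - b n * x : ℝ) := by nlinarith [h1.2.2.1, Real.sqrt_nonneg (n : ℝ)]
    exact_mod_cast this.ne'
  have h2 := log_norm_prod hn hKx ha hb
  have h3 : ∀ k, dd T n k * (((x : ℂ) ^ k).re) = dd T n k * x ^ k := by
    intro k
    rw [← Complex.ofReal_pow, Complex.ofReal_re]
  rw [tsum_congr h3] at h2
  rw [← h2, hn.2.2.2.1 x, norm_mul, norm_mul]
  have hne := (hasSum_log_prod hKx (T n) hn.2.2.1).2
  rw [Real.log_mul (mul_ne_zero (norm_ne_zero_iff.mpr ha) (norm_ne_zero_iff.mpr hb))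
    (norm_ne_zero_iff.mpr hne), Real.log_mul (norm_ne_zero_iff.mpr ha) (norm_ne_zero_iff.mpr hb)]
  ring

theorem z_mul_P (n : ℕ) (hn : 1 ≤ n) (z : ℂ) : z * aeval z (P n) = Q (n - 1) z - Q n z := by
  obtain ⟨k, rfl⟩ := Nat.exists_eq_add_of_le' hn
  rw [Nat.add_sub_cancel]
  unfold Q
  rw [F_succ, map_add]
  ring

/-- The real part of the limit function is nonnegative. -/
theorem re_nonneg {K : ℝ} {a b : ℕ → ℝ} {T : ℕ → Multiset ℂ} (hK : 1 ≤ K)
    (h : ∀ᶠ n in atTop, Hyp K a b T n) {z : ℂ} (hz : z ≠ 0) (hz1 : ‖z‖ < 1 / (2 * K)) {L : ℝ}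
    (hL : Tendsto (fun n => ∑' k, dd T n k * (z ^ k).re) atTop (𝓝 L)) : 0 ≤ L := by
  by_contra hneg
  push Not at hneg
  have hzpos : 0 < ‖z‖ := norm_pos_iff.mpr hz
  have hz2 : ‖z‖ < 1 / 2 := by
    refine hz1.trans_le ?_
    rw [div_le_div_iff₀ (by linarith) (by norm_num)]
    linarith
  have hKz : K * ‖z‖ < 1 := by
    rw [lt_div_iff₀ (by linarith)] at hz1
    nlinarith
  obtain ⟨ε, hε0, hε1⟩ : ∃ ε : ℝ, 0 < ε ∧ ε < min (-L) 1 := exists_between (by
    rw [lt_min_iff]; constructor <;> linarith)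
  have hεL : L < -ε := by have := hε1.trans_le (min_le_left _ _); linarith
  have hε1' : ε < 1 := hε1.trans_le (min_le_right _ _)
  have hz1ne : 1 + z ≠ 0 := by
    intro hc
    have : z = -1 := by linear_combination hc
    rw [this, norm_neg, norm_one] at hz2
    norm_num at hz2
  -- bound for `Q`
  have hQ : ∀ᶠ n : ℕ in atTop, ‖Q n z‖ ≤ 4 * (n : ℝ) ^ (1 - ε) := by
    filter_upwards [h, hL.eventually_lt_const hεL,
      sqrt_tendsto_atTop.eventually_ge_atTop (4 / ‖z‖), sqrt_tendsto_atTop.eventually_ge_atTop 1,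
      eventually_ge_atTop 3] with n hn hn1 hn2 hns hn3
    have h1 := hn.ge_a
    rw [div_le_iff₀ hzpos] at hn2
    have hlog := hn.2.2.2.2.2.log_ge
    have ha : (1 - (a n : ℂ) * z) ≠ 0 := by
      intro hc
      have h2 : ‖(a n : ℂ) * z‖ = 1 := by
        rw [show (a n : ℂ) * z = 1 by linear_combination -hc, norm_one]
      rw [norm_mul, Complex.norm_real, Real.norm_eq_abs] at h2
      have := le_abs_self (a n)
      nlinarith [h1.1]
    have hb : (1 - (b n : ℂ) * z) ≠ 0 := by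
      intro hc
      have h2 : ‖(b n : ℂ) * z‖ = 1 := by
        rw [show (b n : ℂ) * z = 1 by linear_combination -hc, norm_one]
      rw [norm_mul, Complex.norm_real, Real.norm_eq_abs] at h2
      have := neg_le_abs (b n)
      nlinarith [h1.2.2.1]
    have h2 := log_norm_prod hn hKz ha hb
    have hne := (hasSum_log_prod hKz (T n) hn.2.2.1).2
    rw [← h2, div_lt_iff₀ (by linarith)] at hn1
    have hn0 : (0 : ℝ) < n := by exact_mod_cast (by omega : 0 < n)
    have h3 : ‖((T n).map (fun μ => 1 - (μ - 1) * z)).prod‖ ≤ (n : ℝ) ^ (-ε) := by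
      rw [Real.rpow_def_of_pos hn0, ← Real.log_le_iff_le_exp (norm_pos_iff.mpr hne), mul_comm]
      exact hn1.le
    have hss := Large.sqrt_sq (n := n)
    have h4 : ‖1 - (a n : ℂ) * z‖ ≤ 2 * √(n : ℝ) := by
      refine (norm_sub_le _ _).trans ?_
      rw [norm_one, norm_mul, Complex.norm_real, Real.norm_eq_abs,
        abs_of_nonneg (by linarith [h1.1])]
      nlinarith [h1.2.1]
    have h5 : ‖1 - (b n : ℂ) * z‖ ≤ 2 * √(n : ℝ) := by
      refine (norm_sub_le _ _).trans ?_
      rw [norm_one, norm_mul, Complex.norm_real, Real.norm_eq_abs,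
        abs_of_nonpos (by linarith [h1.2.2.1])]
      nlinarith [h1.2.2.2]
    rw [hn.2.2.2.1 z, norm_mul, norm_mul]
    calc ‖1 - (a n : ℂ) * z‖ * ‖1 - (b n : ℂ) * z‖ *
          ‖((T n).map (fun μ => 1 - (μ - 1) * z)).prod‖
        ≤ (2 * √(n : ℝ)) * (2 * √(n : ℝ)) * (n : ℝ) ^ (-ε) := by
          refine mul_le_mul (mul_le_mul h4 h5 (norm_nonneg _) (by linarith)) h3 (norm_nonneg _)
            (by positivity)
      _ = 4 * (n : ℝ) ^ (1 - ε) := by
          rw [sub_eq_add_neg, Real.rpow_add hn0, Real.rpow_one]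
          linear_combination 4 * (n : ℝ) ^ (-ε) * hss
  obtain ⟨n₀, hn₀⟩ := eventually_atTop.mp hQ
  refine P_not_small hz hz1ne (A := 8 / ‖z‖) (by positivity) hε0 hε1' ?_
  filter_upwards [eventually_ge_atTop (n₀ + 1)] with n hn
  have h1 := z_mul_P n (by omega) z
  have h2 := congrArg norm h1
  rw [norm_mul] at h2
  have h3 := norm_sub_le (Q (n - 1) z) (Q n z)
  have h4 := hn₀ (n - 1) (by omega)
  have h5 := hn₀ n (by omega)
  have h6 : ((n - 1 : ℕ) : ℝ) ^ (1 - ε) ≤ (n : ℝ) ^ (1 - ε) :=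
    Real.rpow_le_rpow (by positivity) (by exact_mod_cast Nat.sub_le n 1) (by linarith)
  rw [div_mul_eq_mul_div, le_div_iff₀ hzpos]
  linarith

theorem contradiction {K : ℝ} {a b : ℕ → ℝ} {T : ℕ → Multiset ℂ} (hK : 1 ≤ K)
    (h : ∀ᶠ n in atTop, Hyp K a b T n) : False := by
  obtain ⟨hf, hdiff, h0, hlim⟩ := limit_function (dd T) (A := 2) (K := K) (by norm_num)
    (by linarith) (by filter_upwards [h] with n hn k using dd_bound (by linarith) hn k)
    (fun n => by simp [dd]) (fun x hx hx1 => by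
      obtain ⟨L, _, hL⟩ := conv_pos hK h hx hx1
      exact ⟨L, hL⟩)
  have hr : 0 < 1 / (2 * K) := by positivity
  have hzero := min_principle hr hdiff h0 (fun z hz hz0 =>
    re_nonneg hK h hz0 (mem_ball_zero_iff.mp hz) (hlim z hz))
  set x : ℝ := 1 / (2 * K) / 2 with hx
  have hx0 : 0 < x := by positivity
  have hx1 : x < 1 / (2 * K) := by rw [hx]; linarith
  have hmem : (x : ℂ) ∈ Metric.ball (0 : ℂ) (1 / (2 * K)) := by
    rw [mem_ball_zero_iff, Complex.norm_real, Real.norm_eq_abs, abs_of_pos hx0]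
    exact hx1
  obtain ⟨L, hL0, hL⟩ := conv_pos hK h hx0 hx1
  have h2 := hlim x hmem
  have h3 : ∀ n, (∑' k, dd T n k * (((x : ℂ) ^ k).re)) = ∑' k, dd T n k * x ^ k := by
    intro n
    refine tsum_congr fun k => ?_
    rw [← Complex.ofReal_pow, Complex.ofReal_re]
  simp only [h3] at h2
  have h4 := tendsto_nhds_unique hL h2
  rw [hzero _ hmem] at h4
  simp at h4
  linarith

theorem q_le_neg {n : ℕ} (hn : 1 ≤ n) {y : ℝ} (hy : y < 0) (hq : q n y = 0) : q n (-y) ≤ 0 := by
  have h1 : Q n (y : ℂ) = 0 := by rw [← ofReal_q, hq]; simp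
  have h2 : (y : ℂ) * (aeval (y : ℂ) (F n) - 1) = 1 := by
    unfold Q at h1
    linear_combination -h1
  have h3 := congrArg norm h2
  rw [norm_mul, norm_one] at h3
  have h4 := norm_aeval_F_sub_one_le (y : ℂ) hn
  have h5 : ‖(y : ℂ)‖ = -y := by
    rw [Complex.norm_real, Real.norm_eq_abs, abs_of_neg hy]
  rw [h5] at h3 h4
  have h6 := mul_le_mul_of_nonneg_left h4 (by linarith : 0 ≤ -y)
  unfold q
  nlinarith

/-- The structure of the spectrum for large `n`, with the spectral radius. -/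
theorem decomp' {n : ℕ} (h : Large n) : ∃ (ρ₁ ρ₂ : ℝ) (T : Multiset ℂ),
    (redheffer n).charpoly.roots =
      Multiset.replicate (n - Nat.log 2 n - 1) 1 + {(ρ₁ : ℂ), (ρ₂ : ℂ)} + T ∧
    |ρ₁ - 1 - √(n : ℝ)| ≤ 5 * Real.log n ∧ |ρ₂ - 1 + √(n : ℝ)| ≤ 5 * Real.log n ∧
    (∀ μ ∈ T, ‖μ - 1‖ ≤ 8 * Real.log n) ∧
    (∀ z, Q n z = (1 - (ρ₁ - 1) * z) * (1 - (ρ₂ - 1) * z) *
      (T.map (fun μ => 1 - (μ - 1) * z)).prod) ∧ T.card + 1 = Nat.log 2 n ∧
    (∀ μ ∈ (redheffer n).charpoly.roots, ‖μ‖ ≤ ρ₁) := by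
  obtain ⟨ρ₁, ρ₂, T, h1, h2, h3, h4, h5, h6⟩ := decomp h
  refine ⟨ρ₁, ρ₂, T, h1, h2, h3, h4, h5, h6, ?_⟩
  have hn3 := h.1
  have hL := h.log_ge
  have hL2 := h.2
  have a1 := abs_le.mp h2
  have a2 := abs_le.mp h3
  have hr1 : √(n : ℝ) / 2 ≤ ρ₁ - 1 := by linarith [a1.1]
  have hr2 : ρ₂ - 1 ≤ - (√(n : ℝ) / 2) := by linarith [a2.2]
  have hρ₂0 : ρ₂ - 1 < 0 := by linarith
  have hρ₁0 : 0 < ρ₁ - 1 := by linarith
  -- compare `ρ₂` and `ρ₁`
  have hcomp : 1 - ρ₂ ≤ ρ₁ - 1 := by
    set y := (ρ₂ - 1)⁻¹ with hy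
    have hy0 : y < 0 := inv_lt_zero.mpr hρ₂0
    have hqy : q n y = 0 := by
      have : Q n (y : ℂ) = 0 := by
        rw [h5]
        have : ((ρ₂ : ℂ) - 1) * (y : ℂ) = 1 := by
          have h7 : (ρ₂ - 1) * y = 1 := mul_inv_cancel₀ hρ₂0.ne
          exact_mod_cast h7
        rw [this]; ring
      rw [← ofReal_q] at this
      exact_mod_cast this
    have hneg := q_le_neg (by omega : 1 ≤ n) hy0 hqy
    have h0 : q n 0 = 1 := by simp [q]
    have hivt := intermediate_value_Icc' (by linarith : (0 : ℝ) ≤ -y) (q_continuous n).continuousOn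
    have hmem : (0 : ℝ) ∈ Set.Icc (q n (-y)) (q n 0) := ⟨hneg, by rw [h0]; norm_num⟩
    obtain ⟨x, hx, hqx⟩ := hivt hmem
    have hx0 : 0 < x := by
      rcases eq_or_lt_of_le hx.1 with h7 | h7
      · rw [← h7, h0] at hqx; norm_num at hqx
      · exact h7
    have hxy : -(ρ₂ - 1) ≤ x⁻¹ := by
      have h8 : x * (-(ρ₂ - 1)) ≤ 1 := by
        have h9 := mul_le_mul_of_nonneg_right hx.2 (by linarith : 0 ≤ -(ρ₂ - 1))
        have h10 : -y * (-(ρ₂ - 1)) = 1 := by
          rw [neg_mul_neg, hy]; exact inv_mul_cancel₀ hρ₂0.ne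
        linarith
      rw [← one_div, le_div_iff₀ hx0]
      linarith
    -- `1 + x⁻¹` is a root
    have hroot : (1 + (x : ℂ)⁻¹) ∈ (redheffer n).charpoly.roots := by
      refine mem_roots_of_Q n (by omega) x (by exact_mod_cast hx0.ne') ?_
      rw [← ofReal_q, hqx]; simp
    rw [h1, Multiset.mem_add, Multiset.mem_add] at hroot
    have hxinv : 0 < x⁻¹ := inv_pos.mpr hx0
    rcases hroot with (hroot | hroot) | hroot
    · exfalso
      have := Multiset.eq_of_mem_replicate hroot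
      have h11 : ((x : ℂ))⁻¹ = 0 := by linear_combination this
      rw [inv_eq_zero] at h11
      exact hx0.ne' (by exact_mod_cast h11)
    · rw [Multiset.insert_eq_cons, Multiset.mem_cons, Multiset.mem_singleton] at hroot
      rcases hroot with hroot | hroot
      · have h11 : 1 + x⁻¹ = ρ₁ := by exact_mod_cast hroot
        linarith
      · exfalso
        have h11 : 1 + x⁻¹ = ρ₂ := by exact_mod_cast hroot
        linarith
    · exfalso
      have h11 := h4 _ hroot
      have h12 : (1 + (x : ℂ)⁻¹) - 1 = ((x⁻¹ : ℝ) : ℂ) := by push_cast; ring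
      rw [h12, Complex.norm_real, Real.norm_of_nonneg hxinv.le] at h11
      linarith
  intro μ hμ
  rw [h1, Multiset.mem_add, Multiset.mem_add] at hμ
  rcases hμ with (hμ | hμ) | hμ
  · rw [Multiset.eq_of_mem_replicate hμ, norm_one]
    linarith
  · rw [Multiset.insert_eq_cons, Multiset.mem_cons, Multiset.mem_singleton] at hμ
    rcases hμ with rfl | rfl
    · rw [Complex.norm_real, Real.norm_of_nonneg (by linarith)]
    · rw [Complex.norm_real, Real.norm_eq_abs]
      rw [abs_le]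
      constructor <;> linarith
  · have h7 := h4 μ hμ
    have h8 : ‖μ‖ ≤ ‖μ - 1‖ + 1 := by
      calc ‖μ‖ = ‖(μ - 1) + 1‖ := by ring_nf
        _ ≤ ‖μ - 1‖ + ‖(1 : ℂ)‖ := norm_add_le _ _
        _ = _ := by rw [norm_one]
    linarith

/-- **The nontrivial eigenvalues of the Redheffer matrices are unbounded.**
For every `C` and every `N` there is `n ≥ N` such that the eigenvalues of the `n × n` Redheffer
matrix, listed with algebraic multiplicity, are `n - ⌊log₂ n⌋ - 1` copies of `1`, a positive real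
eigenvalue `ρ₁` close to `√n` (the spectral radius), a negative real eigenvalue `ρ₂` close to
`-√n`, and the `⌊log₂ n⌋ - 1` nontrivial eigenvalues, forming the multiset `T`, one of which has
modulus greater than `C`. -/
theorem result (C : ℝ) (N : ℕ) : ∃ n ≥ N, ∃ (ρ₁ ρ₂ : ℝ) (T : Multiset ℂ),
    (redheffer n).charpoly.roots =
      Multiset.replicate (n - Nat.log 2 n - 1) 1 + {(ρ₁ : ℂ), (ρ₂ : ℂ)} + T ∧
    |ρ₁ - √(n : ℝ)| ≤ 6 * Real.log n ∧ |ρ₂ + √(n : ℝ)| ≤ 6 * Real.log n ∧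
    (∀ μ ∈ (redheffer n).charpoly.roots, ‖μ‖ ≤ ρ₁) ∧
    (∀ μ ∈ T, ‖μ‖ ≤ 9 * Real.log n) ∧
    ∃ μ ∈ T, C < ‖μ‖ := by
  by_contra hcon
  push Not at hcon
  have hstep : ∀ n : ℕ, Large n ∧ N ≤ n → ∃ (ρ₁ ρ₂ : ℝ) (T : Multiset ℂ),
      |ρ₁ - 1 - √(n : ℝ)| ≤ 5 * Real.log n ∧ |ρ₂ - 1 + √(n : ℝ)| ≤ 5 * Real.log n ∧
      (∀ μ ∈ T, ‖μ‖ ≤ C) ∧
      (∀ z, Q n z = (1 - (ρ₁ - 1) * z) * (1 - (ρ₂ - 1) * z) *
        (T.map (fun μ => 1 - (μ - 1) * z)).prod) ∧ T.card + 1 = Nat.log 2 n := by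
    intro n ⟨hn, hNn⟩
    obtain ⟨ρ₁, ρ₂, T, h1, h2, h3, h4, h5, h6, h7⟩ := decomp' hn
    have hL := hn.log_ge
    have a1 := abs_le.mp h2
    have a2 := abs_le.mp h3
    refine ⟨ρ₁, ρ₂, T, h2, h3, ?_, h5, h6⟩
    refine hcon n hNn ρ₁ ρ₂ T h1 ?_ ?_ h7 ?_
    · rw [abs_le]; constructor <;> linarith [a1.1, a1.2]
    · rw [abs_le]; constructor <;> linarith [a2.1, a2.2]
    · intro μ hμ
      have h8 := h4 μ hμ
      have h9 : ‖μ‖ ≤ ‖μ - 1‖ + 1 := by
        calc ‖μ‖ = ‖(μ - 1) + 1‖ := by ring_nf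
          _ ≤ ‖μ - 1‖ + ‖(1 : ℂ)‖ := norm_add_le _ _
          _ = _ := by rw [norm_one]
      linarith
  choose! ρ₁ ρ₂ T hT using hstep
  refine contradiction (K := |C| + 1) (a := fun n => ρ₁ n - 1) (b := fun n => ρ₂ n - 1) (T := T)
    (by linarith [abs_nonneg C]) ?_
  filter_upwards [eventually_large, eventually_ge_atTop N] with n hn hNn
  obtain ⟨h1, h2, h3, h4, h5⟩ := hT n ⟨hn, hNn⟩
  refine ⟨h1, h2, ?_, ?_, by omega, hn⟩
  · intro μ hμ
    have h6 := h3 μ hμ
    have h7 := le_abs_self C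
    refine (norm_sub_le _ _).trans ?_
    rw [norm_one]
    linarith
  · intro z
    rw [h4 z]
    push_cast
    ring

end Pool.Agent.Results.MP_8a4b73_nt.Unbounded
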